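import Mathlib

/-!
# SO: decompositions in one fine cell

`y i` is a point of the simplex spanned by `B i`, `Phi lam y = ∑ lam i • y i`. A cell is independent if the decomposition
is determined by the point.
-/

open scoped BigOperators

namespace Pool.Agent.Helper27.SO

variable {n d : ℕ}

/-- `y` is a decomposition in the cell `B` -/
structure InC (B : Fin n → Finset (Fin d)) (y : Fin n → Fin d → ℝ) : Prop where
  nonneg : ∀ i c, 0 ≤ y i c
  sum : ∀ i, ∑ c, y i c = 1
  supp : ∀ i c, c ∉ B i → y i c = 0

/-- the weighted sum -/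
def Phi (lam : Fin n → ℝ) (y : Fin n → Fin d → ℝ) : Fin d → ℝ := fun c => ∑ i, lam i * y i c

/-- the differences of the decompositions in a cell -/
def dirs (B : Fin n → Finset (Fin d)) : Submodule ℝ (Fin n → Fin d → ℝ) where
  carrier := {δ | (∀ i, ∑ c, δ i c = 0) ∧ ∀ i c, c ∉ B i → δ i c = 0}
  add_mem' := by
    rintro a b ⟨ha, ha'⟩ ⟨hb, hb'⟩
    refine ⟨fun i => ?_, fun i c hc => ?_⟩
    · simp [Finset.sum_add_distrib, ha, hb]
    · simp [ha' i c hc, hb' i c hc]
  zero_mem' := by simp
  smul_mem' := by
    rintro r a ⟨ha, ha'⟩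
    refine ⟨fun i => ?_, fun i c hc => ?_⟩
    · simp [← Finset.mul_sum, ha]
    · simp [ha' i c hc]

/-- column sums -/
def col (n d : ℕ) : (Fin n → Fin d → ℝ) →ₗ[ℝ] (Fin d → ℝ) where
  toFun δ := fun c => ∑ i, δ i c
  map_add' a b := by ext c; simp [Finset.sum_add_distrib]
  map_smul' r a := by ext c; simp [Finset.mul_sum]

theorem col_apply (δ : Fin n → Fin d → ℝ) (c : Fin d) : col n d δ c = ∑ i, δ i c := rfl

/-- the decomposition is determined by the point -/
def Ind (B : Fin n → Finset (Fin d)) : Prop := ∀ δ ∈ dirs B, col n d δ = 0 → δ = 0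

/-- functionals with prescribed values on `B i`, constant on the other `B j` -/
theorem exists_functional {B : Fin n → Finset (Fin d)} (hB : Ind B) (hne : ∀ i, (B i).Nonempty)
    (i : Fin n) (a : Fin d → ℝ) :
    ∃ e : Fin d → ℝ, (∀ c ∈ B i, e c = a c) ∧
      ∀ j, j ≠ i → ∀ c ∈ B j, ∀ c' ∈ B j, e c = e c' := by
  classical
  -- the restricted map
  set L : dirs B →ₗ[ℝ] (Fin d → ℝ) := (col n d).comp (dirs B).subtype with hL
  have hinj : LinearMap.ker L = ⊥ := by
    rw [LinearMap.ker_eq_bot']
    intro δ hδ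
    exact Subtype.ext (hB δ.1 δ.2 hδ)
  obtain ⟨g, hg⟩ := L.exists_leftInverse_of_injective hinj
  set φ : dirs B →ₗ[ℝ] ℝ := (∑ c, a c • (LinearMap.proj c)) ∘ₗ (LinearMap.proj i) ∘ₗ
    (dirs B).subtype with hφ
  have hφa : ∀ δ : dirs B, φ δ = ∑ c, a c * δ.1 i c := by
    intro δ
    simp [hφ]
  set ψ : (Fin d → ℝ) →ₗ[ℝ] ℝ := φ ∘ₗ g with hψ
  have hψL : ∀ δ : dirs B, ψ (L δ) = φ δ := by
    intro δ
    have : g (L δ) = δ := by
      have := congrArg (fun f => f δ) hg
      simpa using this
    simp [hψ, this]
  -- the elementary differences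
  have hel : ∀ j c c', c ∈ B j → c' ∈ B j →
      ψ (Pi.single c 1) - ψ (Pi.single c' 1) = if j = i then a c - a c' else 0 := by
    intro j c c' hc hc'
    have hmem : (Pi.single j (Pi.single c 1 - Pi.single c' 1) : Fin n → Fin d → ℝ) ∈ dirs B := by
      refine ⟨fun k => ?_, fun k b hb => ?_⟩
      · by_cases hk : k = j
        · subst hk
          simp [Finset.sum_sub_distrib]
        · simp [hk]
      · by_cases hk : k = j
        · subst hk
          have h1 : b ≠ c := fun h => hb (h ▸ hc)
          have h2 : b ≠ c' := fun h => hb (h ▸ hc')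
          simp [h1, h2]
        · simp [hk]
    have h1 := hψL ⟨_, hmem⟩
    have h2 : L ⟨_, hmem⟩ = Pi.single c 1 - Pi.single c' 1 := by
      ext b
      simp only [hL, LinearMap.comp_apply, Submodule.subtype_apply, col_apply]
      rw [Finset.sum_eq_single j]
      · simp
      · intro k _ hk
        simp [hk]
      · simp
    rw [h2, map_sub, hφa] at h1
    rw [h1]
    by_cases hji : j = i
    · subst hji
      simp [mul_sub, Finset.sum_sub_distrib, Pi.single_apply]
    · have hij : i ≠ j := fun h => hji h.symm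
      simp [hji, hij]
  obtain ⟨c0, hc0⟩ := hne i
  refine ⟨fun c => ψ (Pi.single c 1) - (ψ (Pi.single c0 1) - a c0), ?_, ?_⟩
  · intro c hc
    have := hel i c c0 hc hc0
    rw [if_pos rfl] at this
    linarith
  · intro j hj c hc c' hc'
    have := hel j c c' hc hc'
    rw [if_neg hj] at this
    linarith

/-- pairing with a functional which is constant on the other parts -/
theorem pairing {B : Fin n → Finset (Fin d)} {y z : Fin n → Fin d → ℝ} (hy : InC B y)
    (hz : InC B z) (lam : Fin n → ℝ) (i : Fin n) {e : Fin d → ℝ}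
    (he : ∀ j, j ≠ i → ∀ c ∈ B j, ∀ c' ∈ B j, e c = e c') :
    ∑ c, e c * (Phi lam y c - Phi lam z c) = lam i * ∑ c, e c * (y i c - z i c) := by
  classical
  have h1 : ∀ c, e c * (Phi lam y c - Phi lam z c) = ∑ j, lam j * (e c * (y j c - z j c)) := by
    intro c
    unfold Phi
    rw [← Finset.sum_sub_distrib, Finset.mul_sum]
    refine Finset.sum_congr rfl fun j _ => ?_
    ring
  simp only [h1]
  rw [Finset.sum_comm, Finset.sum_eq_single i]
  · rw [Finset.mul_sum]
  · intro j _ hj
    rw [← Finset.mul_sum]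
    have h2 : ∑ c, e c * (y j c - z j c) = 0 := by
      rcases (B j).eq_empty_or_nonempty with h | ⟨c0, hc0⟩
      · refine Finset.sum_eq_zero fun c _ => ?_
        rw [hy.supp j c (by simp [h]), hz.supp j c (by simp [h])]
        ring
      · have h3 : ∀ c, e c * (y j c - z j c) = e c0 * (y j c - z j c) := by
          intro c
          by_cases hc : c ∈ B j
          · rw [he j hj c hc c0 hc0]
          · rw [hy.supp j c hc, hz.supp j c hc]
            ring
        simp only [h3]
        rw [← Finset.mul_sum, Finset.sum_sub_distrib, hy.sum, hz.sum]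
        ring
    rw [h2, mul_zero]
  · simp

/-- the parts move at most as much as the point -/
theorem lip_cell {B : Fin n → Finset (Fin d)} (hB : Ind B) (hne : ∀ i, (B i).Nonempty)
    {y z : Fin n → Fin d → ℝ} (hy : InC B y) (hz : InC B z) (lam : Fin n → ℝ) (i : Fin n) :
    lam i * ∑ c, |y i c - z i c| ≤ ∑ c, |Phi lam y c - Phi lam z c| := by
  classical
  obtain ⟨e, he1, he2⟩ := exists_functional hB hne i
    (fun c => if 0 ≤ y i c - z i c then 1 else -1)
  have h1 := pairing hy hz lam i (e := fun c => max (-1) (min 1 (e c)))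
    (fun j hj c hc c' hc' => by rw [he2 j hj c hc c' hc'])
  have h2 : ∑ c, max (-1) (min 1 (e c)) * (y i c - z i c) = ∑ c, |y i c - z i c| := by
    refine Finset.sum_congr rfl fun c _ => ?_
    by_cases hc : c ∈ B i
    · rw [he1 c hc]
      split_ifs with h
      · rw [abs_of_nonneg h]
        norm_num
      · rw [abs_of_neg (not_le.1 h)]
        norm_num
    · rw [hy.supp i c hc, hz.supp i c hc]
      simp
  rw [h2] at h1
  rw [← h1]
  refine Finset.sum_le_sum fun c _ => ?_
  have h3 : |max (-1) (min 1 (e c))| ≤ 1 := by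
    rw [abs_le]
    exact ⟨le_max_left _ _, max_le (by norm_num) (min_le_left _ _)⟩
  calc max (-1) (min 1 (e c)) * (Phi lam y c - Phi lam z c) ≤
      |max (-1) (min 1 (e c)) * (Phi lam y c - Phi lam z c)| := le_abs_self _
    _ = |max (-1) (min 1 (e c))| * |Phi lam y c - Phi lam z c| := abs_mul _ _
    _ ≤ 1 * |Phi lam y c - Phi lam z c| := mul_le_mul_of_nonneg_right h3 (abs_nonneg _)
    _ = _ := one_mul _

/-- the decomposition of a lattice point is integral -/
theorem integral_cell {B : Fin n → Finset (Fin d)} (hB : Ind B) (hne : ∀ i, (B i).Nonempty)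
    {y : Fin n → Fin d → ℝ} (hy : InC B y) {m : Fin d → ℤ}
    (hm : ∀ c, ∑ i, y i c = (m c : ℝ)) :
    ∃ f : Fin n → Fin d, (∀ i, f i ∈ B i) ∧ ∀ i c, y i c = if f i = c then 1 else 0 := by
  classical
  -- every entry is an integer
  have hint : ∀ i, ∀ c0 ∈ B i, ∃ k : ℤ, y i c0 = k := by
    intro i c0 hc0
    obtain ⟨e, he1, he2⟩ := exists_functional hB hne i (fun c => if c = c0 then 1 else 0)
    -- rounded functional
    set r : Fin d → ℤ := fun c => if (1 : ℝ) ≤ e c then 1 else 0 with hr
    have hr2 : ∀ j, j ≠ i → ∀ c ∈ B j, ∀ c' ∈ B j, r c = r c' := by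
      intro j hj c hc c' hc'
      show (if (1 : ℝ) ≤ e c then (1 : ℤ) else 0) = if (1 : ℝ) ≤ e c' then (1 : ℤ) else 0
      rw [he2 j hj c hc c' hc']
    choose b hb using hne
    have h1 : ∑ c, (r c : ℝ) * (m c : ℝ) = y i c0 + ∑ j ∈ Finset.univ.erase i, (r (b j) : ℝ) := by
      have h2 : ∀ c, (r c : ℝ) * (m c : ℝ) = ∑ j, (r c : ℝ) * y j c := by
        intro c
        rw [← hm c, Finset.mul_sum]
      simp only [h2]
      rw [Finset.sum_comm, ← Finset.add_sum_erase _ _ (Finset.mem_univ i)]
      congr 1
      · rw [Finset.sum_eq_single c0]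
        · have : r c0 = 1 := by
            show (if (1 : ℝ) ≤ e c0 then (1 : ℤ) else 0) = 1
            rw [he1 c0 hc0]
            simp
          rw [this]
          simp
        · intro c _ hc
          by_cases hcB : c ∈ B i
          · have : r c = 0 := by
              show (if (1 : ℝ) ≤ e c then (1 : ℤ) else 0) = 0
              rw [he1 c hcB, if_neg hc]
              norm_num
            rw [this]
            simp
          · rw [hy.supp i c hcB, mul_zero]
        · simp
      · refine Finset.sum_congr rfl fun j hj => ?_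
        have hji : j ≠ i := Finset.ne_of_mem_erase hj
        have h3 : ∀ c, (r c : ℝ) * y j c = (r (b j) : ℝ) * y j c := by
          intro c
          by_cases hc : c ∈ B j
          · rw [hr2 j hji c hc (b j) (hb j)]
          · rw [hy.supp j c hc, mul_zero, mul_zero]
        simp only [h3]
        rw [← Finset.mul_sum, hy.sum, mul_one]
    refine ⟨∑ c, r c * m c - ∑ j ∈ Finset.univ.erase i, r (b j), ?_⟩
    push_cast
    linarith
  have hint' : ∀ i c, y i c = 0 ∨ y i c = 1 := by
    intro i c
    by_cases hc : c ∈ B i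
    · obtain ⟨k, hk⟩ := hint i c hc
      have h0 := hy.nonneg i c
      have h1 : y i c ≤ 1 := by
        rw [← hy.sum i]
        exact Finset.single_le_sum (fun c _ => hy.nonneg i c) (Finset.mem_univ c)
      rw [hk] at h0 h1
      have h2 : (0 : ℤ) ≤ k := by exact_mod_cast h0
      have h3 : k ≤ (1 : ℤ) := by exact_mod_cast h1
      rcases (by omega : k = 0 ∨ k = 1) with h | h
      · left; rw [hk, h]; simp
      · right; rw [hk, h]; simp
    · exact Or.inl (hy.supp i c hc)
  have hex : ∀ i, ∃ c, y i c = 1 := by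
    intro i
    by_contra hcon
    push Not at hcon
    have h0 : ∑ c, y i c = 0 :=
      Finset.sum_eq_zero fun c _ => (hint' i c).resolve_right (hcon c)
    rw [hy.sum i] at h0
    exact one_ne_zero h0
  choose f hf using hex
  refine ⟨f, fun i => ?_, fun i c => ?_⟩
  · by_contra hc
    have := hy.supp i (f i) hc
    rw [hf i] at this
    exact one_ne_zero this
  · split_ifs with h
    · rw [← h, hf i]
    · rcases hint' i c with h1 | h1
      · exact h1
      · exfalso
        have h2 : y i c + y i (f i) ≤ ∑ c, y i c := by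
          have : ({c, f i} : Finset (Fin d)) ⊆ Finset.univ := Finset.subset_univ _
          calc y i c + y i (f i) = ∑ b ∈ ({c, f i} : Finset (Fin d)), y i b := by
                rw [Finset.sum_pair (fun h' => h h'.symm)]
            _ ≤ _ := Finset.sum_le_sum_of_subset_of_nonneg this fun b _ _ => hy.nonneg i b
        rw [hy.sum i, h1, hf i] at h2
        norm_num at h2

end Pool.Agent.Helper27.SO
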