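import Pool.Agent.Helper27.SO.Frozen

/-!
# SO: the combinatorial data contained in the frozen statement

`extract`: the family `S` of cells of the frozen statement gives, for every enumeration `u` of the
position set, a set `T` of sections (functions from labels to colours) with the properties `Data`.
-/

open scoped BigOperators Topology
open Set

namespace Pool.Agent.Helper27.SO

variable {n d : ℕ}

/-- The combinatorial data of a fine mixed subdivision.  Labels `Fin n`, colours `Fin d`; `T f`:
the function `f` is a section of some cell; `u i` is the position of the unmixed cell with label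
`i`, `g i j` is the colour of the label `j` in this cell. -/
structure Data (n d : ℕ) (u : Fin n → Fin d → ℕ) (T : (Fin n → Fin d) → Prop)
    (g : Fin n → Fin n → Fin d) : Prop where
  /-- for every set of labels and every content there is a section -/
  ex : ∀ (I : Finset (Fin n)) (m : Fin d → ℕ), ∑ c, m c = I.card →
    ∃ f, T f ∧ ∀ c, (I.filter (fun i => f i = c)).card = m c
  /-- sections with the same content on `I` agree on `I` -/
  compat : ∀ f f', T f → T f' → ∀ I : Finset (Fin n),
    (∀ c, (I.filter (fun i => f i = c)).card = (I.filter (fun i => f' i = c)).card) →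
    ∀ i ∈ I, f i = f' i
  /-- the real form of `ex` -/
  exr : ∀ (lam : Fin n → ℝ) (x : Fin d → ℝ), (∀ i, 0 ≤ lam i) → (∀ i, lam i ≤ 1) →
    (∀ c, 0 ≤ x c) → ∑ c, x c = ∑ i, lam i →
    ∃ y : Fin n → Fin d → ℝ, (∀ i c, 0 ≤ y i c) ∧ (∀ i, ∑ c, y i c = 1) ∧
      (∀ c, ∑ i, lam i * y i c = x c) ∧ ∀ f, (∀ i, y i (f i) ≠ 0) → T f
  /-- the colour `c` is free at the label `i` in the unmixed cell `i` -/
  hole : ∀ i c, T (Function.update (g i) i c)
  /-- the position of the unmixed cell `i` -/
  pos : ∀ i k, u i k = (Finset.univ.filter (fun j => j ≠ i ∧ g i j = k)).card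

theorem froz_of {S : Finset (Fin n → Finset (Fin d))}
    (h1 : ∀ B ∈ S, (∀ i, (B i).Nonempty) ∧ ∑ i, ((B i).card - 1) = d - 1 ∧
        Module.finrank ℝ (vectorSpan ℝ (convexHull ℝ (VB B))) = d - 1)
    (h2 : ∀ x : Fin d → ℝ, (∀ k, 0 ≤ x k) → ∑ k, x k = (n : ℝ) →
      ∃ B ∈ S, x ∈ convexHull ℝ (VB B))
    (h3 : ∀ B ∈ S, ∀ C ∈ S, convexHull ℝ (VB B) ∩ convexHull ℝ (VB C) = ∅ ∨
        ∃ l m : Fin d → ℝ, ∀ F : Fin n → Finset (Fin d),
          F = (fun i => (B i).filter (fun k => ∀ k' ∈ B i, l k ≤ l k')) →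
          (F = (fun i => (C i).filter (fun k => ∀ k' ∈ C i, m k ≤ m k')) ∧
            convexHull ℝ (VB B) ∩ convexHull ℝ (VB C) = convexHull ℝ (VB F))) : Froz S where
  fine := h1
  cov := h2
  face B hB C hC := by
    rcases h3 B hB C hC with h | ⟨l, m, h⟩
    · exact Or.inl h
    · obtain ⟨e1, e2⟩ := h _ rfl
      refine Or.inr ⟨_, fun i => Finset.filter_subset _ _, fun i => ?_, e2⟩
      rw [congrFun e1 i]
      exact Finset.filter_subset _ _

variable {S : Finset (Fin n → Finset (Fin d))}

theorem Froz.exr (h : Froz S) (c0 : Fin d) (lam : Fin n → ℝ) (x : Fin d → ℝ)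
    (h0 : ∀ i, 0 ≤ lam i) (h1 : ∀ i, lam i ≤ 1) (hx : ∀ c, 0 ≤ x c)
    (hs : ∑ c, x c = ∑ i, lam i) :
    ∃ y : Fin n → Fin d → ℝ, (∀ i c, 0 ≤ y i c) ∧ (∀ i, ∑ c, y i c = 1) ∧
      (∀ c, ∑ i, lam i * y i c = x c) ∧ ∀ f, (∀ i, y i (f i) ≠ 0) → Sec S f := by
  obtain ⟨y, ⟨B, hB, hy⟩, hyx⟩ := cov_nonneg h.sys (h.nonempty c0) h.Cov h.Inj c0 lam h0 h1 x hx hs
  refine ⟨y, hy.nonneg, hy.sum, fun c => congrFun hyx c, fun f hf => ⟨B, hB, fun i => ?_⟩⟩
  by_contra hc
  exact hf i (hy.supp i _ hc)

/-- two sections which are free at the label `i` agree -/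
theorem hole_unique {T : (Fin n → Fin d) → Prop}
    (hT : ∀ f f', T f → T f' → ∀ I : Finset (Fin n),
      (∀ c, (I.filter (fun i => f i = c)).card = (I.filter (fun i => f' i = c)).card) →
      ∀ i ∈ I, f i = f' i) (i : Fin n) (g g' : Fin n → Fin d)
    (hg : ∀ c, T (Function.update g i c)) (hg' : ∀ c, T (Function.update g' i c)) (j : Fin n)
    (hj : j ≠ i) : g j = g' j := by
  classical
  have h := hT _ _ (hg (g' j)) (hg' (g j)) {i, j} (fun c => by
    rw [Finset.filter_insert, Finset.filter_insert, Finset.filter_singleton,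
      Finset.filter_singleton]
    simp only [Function.update_self, Function.update_of_ne hj]
    have e1 : ({j} : Finset (Fin n)).card = 1 := rfl
    have e2 : (insert i ({j} : Finset (Fin n))).card = 2 := Finset.card_pair hj.symm
    have e3 : (insert i (∅ : Finset (Fin n))).card = 1 := rfl
    split_ifs <;> simp_all) j (by simp)
  rwa [Function.update_of_ne hj, Function.update_of_ne hj] at h

/-- the unmixed cells have one free label -/
theorem Froz.unmixed (h : Froz S) {B : Fin n → Finset (Fin d)} (hB : B ∈ S) {i : Fin n}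
    (hi : B i = Finset.univ) :
    ∃ g : Fin n → Fin d, (∀ c, Sec S (Function.update g i c)) ∧
      ∀ k, (Finset.univ.filter (fun j => j ≠ i ∧ k ∈ B j)).card =
        (Finset.univ.filter (fun j => j ≠ i ∧ g j = k)).card := by
  classical
  obtain ⟨hne, hcard, -⟩ := h.fine B hB
  have h1 : ∀ j, j ≠ i → (B j).card = 1 := by
    intro j hj
    have h2 : ((B i).card - 1) + ((B j).card - 1) ≤ ∑ i, ((B i).card - 1) := by
      rw [← Finset.sum_pair (f := fun i => (B i).card - 1) hj.symm]
      exact Finset.sum_le_sum_of_subset (Finset.subset_univ _)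
    rw [hcard, hi, Finset.card_univ, Fintype.card_fin] at h2
    have := (hne j).card_pos
    omega
  choose g hg using hne
  have h2 : ∀ j, j ≠ i → ∀ k, k ∈ B j ↔ g j = k := by
    intro j hj k
    obtain ⟨a, ha⟩ := Finset.card_eq_one.1 (h1 j hj)
    have h3 := hg j
    rw [ha, Finset.mem_singleton] at h3
    rw [ha, Finset.mem_singleton, h3]
    exact eq_comm
  refine ⟨g, fun c => ⟨B, hB, fun j => ?_⟩, fun k => ?_⟩
  · by_cases hj : j = i
    · subst hj
      rw [hi]
      exact Finset.mem_univ _
    · rw [Function.update_of_ne hj]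
      exact hg j
  · congr 1
    refine Finset.filter_congr fun j _ => ?_
    constructor
    · rintro ⟨hj, hk⟩
      exact ⟨hj, (h2 j hj k).1 hk⟩
    · rintro ⟨hj, hk⟩
      exact ⟨hj, (h2 j hj k).2 hk⟩

/-- **the extraction theorem** -/
theorem extract (hd : 1 ≤ d) (u : Fin n → Fin d → ℕ) (hu : Function.Injective u)
    (S : Finset (Fin n → Finset (Fin d)))
    (h1 : ∀ B ∈ S, (∀ i, (B i).Nonempty) ∧ ∑ i, ((B i).card - 1) = d - 1 ∧
        Module.finrank ℝ (vectorSpan ℝ (convexHull ℝ (VB B))) = d - 1)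
    (h2 : ∀ x : Fin d → ℝ, (∀ k, 0 ≤ x k) → ∑ k, x k = (n : ℝ) →
      ∃ B ∈ S, x ∈ convexHull ℝ (VB B))
    (h3 : ∀ B ∈ S, ∀ C ∈ S, convexHull ℝ (VB B) ∩ convexHull ℝ (VB C) = ∅ ∨
        ∃ l m : Fin d → ℝ, ∀ F : Fin n → Finset (Fin d),
          F = (fun i => (B i).filter (fun k => ∀ k' ∈ B i, l k ≤ l k')) →
          (F = (fun i => (C i).filter (fun k => ∀ k' ∈ C i, m k ≤ m k')) ∧
            convexHull ℝ (VB B) ∩ convexHull ℝ (VB C) = convexHull ℝ (VB F)))
    (h4 : ∀ v : Fin d → ℕ, (∃ i, u i = v) → ∃ B ∈ S, ∃ i, B i = Finset.univ ∧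
        ∀ k, v k = (Finset.univ.filter (fun j => j ≠ i ∧ k ∈ B j)).card) :
    ∃ (T : (Fin n → Fin d) → Prop) (g : Fin n → Fin n → Fin d), Data n d u T g := by
  classical
  have hS := froz_of h1 h2 h3
  have c0 : Fin d := ⟨0, hd⟩
  have h5 : ∀ i, ∃ (j : Fin n) (g : Fin n → Fin d), (∀ c, Sec S (Function.update g j c)) ∧
      ∀ k, u i k = (Finset.univ.filter (fun a => a ≠ j ∧ g a = k)).card := by
    intro i
    obtain ⟨B, hB, j, hj, hk⟩ := h4 (u i) ⟨i, rfl⟩
    obtain ⟨g, hg, hgk⟩ := hS.unmixed hB hj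
    exact ⟨j, g, hg, fun k => by rw [hk k, hgk k]⟩
  choose σ g hg hgk using h5
  have hinj : Function.Injective σ := by
    intro i i' hii
    apply hu
    ext k
    rw [hgk i k, hgk i' k, ← hii]
    congr 1
    refine Finset.filter_congr fun a _ => ?_
    by_cases ha : a = σ i
    · simp [ha]
    · have hc : ∀ c, Sec S (Function.update (g i') (σ i) c) := by
        intro c
        rw [hii]
        exact hg i' c
      rw [hole_unique (fun f f' hf hf' => hS.compat c0 hf hf') (σ i) (g i) (g i') (hg i) hc a ha]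
  have hbij : Function.Bijective σ := Finite.injective_iff_bijective.1 hinj
  set e : Fin n ≃ Fin n := Equiv.ofBijective σ hbij with he
  have heσ : ∀ i, e i = σ i := fun i => rfl
  refine ⟨fun f => Sec S (f ∘ e.symm), fun i j => g i (e j), ?_⟩
  have hfil : ∀ (f : Fin n → Fin d) (I : Finset (Fin n)) (c : Fin d),
      ((I.map e.toEmbedding).filter (fun i => (f ∘ e.symm) i = c)).card =
        (I.filter (fun i => f i = c)).card := by
    intro f I c
    rw [Finset.filter_map, Finset.card_map]
    congr 1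
    refine Finset.filter_congr fun a _ => ?_
    simp
  constructor
  · intro I m hm
    obtain ⟨f, hf, hfm⟩ := hS.exists_sec c0 (I.map e.toEmbedding) m (by rw [hm, Finset.card_map])
    refine ⟨f ∘ e, ?_, fun c => ?_⟩
    · rw [Function.comp_assoc, e.self_comp_symm, Function.comp_id]
      exact hf
    · rw [← hfil, Function.comp_assoc, e.self_comp_symm, Function.comp_id]
      exact hfm c
  · intro f f' hf hf' I hI i hi
    have := hS.compat c0 hf hf' (I.map e.toEmbedding) (fun c => by rw [hfil, hfil]; exact hI c)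
      (e i) (Finset.mem_map_of_mem _ hi)
    simpa using this
  · intro lam x h0 h1 hx hs
    obtain ⟨y, hy0, hy1, hyx, hy⟩ := hS.exr c0 (lam ∘ e.symm) x (fun i => h0 _) (fun i => h1 _) hx
      (by rw [hs]; exact (Equiv.sum_comp e.symm lam).symm)
    refine ⟨fun i => y (e i), fun i => hy0 _, fun i => hy1 _, fun c => ?_, fun f hf => ?_⟩
    · rw [← hyx c, ← Equiv.sum_comp e (fun i => (lam ∘ e.symm) i * y i c)]
      simp
    · refine hy _ fun i => ?_
      have := hf (e.symm i)
      simpa using this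
  · intro i c
    show Sec S _
    have : Function.update (fun j => g i (e j)) i c ∘ e.symm = Function.update (g i) (σ i) c := by
      ext1 j
      simp only [Function.comp_apply]
      by_cases hj : j = σ i
      · subst hj
        rw [Function.update_self, ← heσ i, e.symm_apply_apply, Function.update_self]
      · rw [Function.update_of_ne hj, Function.update_of_ne, e.apply_symm_apply]
        intro h
        exact hj (by rw [← heσ i, ← h, e.apply_symm_apply])
    rw [this]
    exact hg i c
  · intro i k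
    rw [hgk i k]
    have : (Finset.univ.filter (fun a => a ≠ σ i ∧ g i a = k)) =
        (Finset.univ.filter (fun j => j ≠ i ∧ g i (e j) = k)).map e.toEmbedding := by
      ext a
      simp only [Finset.mem_filter, Finset.mem_univ, true_and, Finset.mem_map,
        Equiv.coe_toEmbedding]
      constructor
      · rintro ⟨h, h'⟩
        refine ⟨e.symm a, ⟨?_, by rw [e.apply_symm_apply]; exact h'⟩, e.apply_symm_apply a⟩
        intro h''
        exact h (by rw [← heσ i, ← h'', e.apply_symm_apply])
      · rintro ⟨b, ⟨h, h'⟩, rfl⟩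
        exact ⟨fun h'' => h (e.injective (by rw [h'', heσ i])), h'⟩
    rw [this, Finset.card_map]

end Pool.Agent.Helper27.SO
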