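import Pool.Agent.Helper27.SO.Glob

/-!
# SO: from the frozen form of fine mixed subdivisions to compatible families of sections
-/

open scoped BigOperators Topology
open Set

namespace Pool.Agent.Helper27.SO

variable {n d : ℕ}

/-- the vertices of the cell `B` -/
def VB (B : Fin n → Finset (Fin d)) : Set (Fin d → ℝ) :=
  {x : Fin d → ℝ | ∃ f : Fin n → Fin d, (∀ i, f i ∈ B i) ∧
    ∀ k, x k = ((Finset.univ.filter (fun i => f i = k)).card : ℝ)}

/-- the section as a decomposition -/
def evec (f : Fin n → Fin d) : Fin n → Fin d → ℝ := fun i c => if f i = c then 1 else 0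

theorem inC_evec {B : Fin n → Finset (Fin d)} {f : Fin n → Fin d} (h : ∀ i, f i ∈ B i) :
    InC B (evec f) where
  nonneg i c := by unfold evec; split_ifs <;> norm_num
  sum i := by simp [evec]
  supp i c hc := by
    unfold evec
    rw [if_neg]
    rintro rfl
    exact hc (h i)

theorem col_evec (f : Fin n → Fin d) (c : Fin d) :
    ∑ i, evec f i c = ((Finset.univ.filter (fun i => f i = c)).card : ℝ) := by
  simp [evec]

theorem Phi_one (y : Fin n → Fin d → ℝ) : Phi (fun _ => 1) y = col n d y := by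
  ext c
  simp [Phi, col_apply]

theorem convex_cell (B : Fin n → Finset (Fin d)) : Convex ℝ {y | InC B y} := by
  intro y hy z hz a b ha hb hab
  refine ⟨fun i c => ?_, fun i => ?_, fun i c hc => ?_⟩
  · simp only [Pi.add_apply, Pi.smul_apply, smul_eq_mul]
    exact add_nonneg (mul_nonneg ha (hy.nonneg i c)) (mul_nonneg hb (hz.nonneg i c))
  · simp only [Pi.add_apply, Pi.smul_apply, smul_eq_mul]
    rw [Finset.sum_add_distrib, ← Finset.mul_sum, ← Finset.mul_sum, hy.sum, hz.sum]
    linarith
  · simp only [Pi.add_apply, Pi.smul_apply, smul_eq_mul]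
    rw [hy.supp i c hc, hz.supp i c hc]
    ring

theorem mem_hull (B : Fin n → Finset (Fin d)) (x : Fin d → ℝ) :
    x ∈ convexHull ℝ (VB B) ↔ ∃ y, InC B y ∧ Phi (fun _ => 1) y = x := by
  classical
  constructor
  · intro hx
    have h1 : convexHull ℝ (VB B) ⊆ col n d '' {y | InC B y} := by
      refine convexHull_min ?_ ((convex_cell B).linear_image _)
      rintro x ⟨f, hf, hfx⟩
      refine ⟨evec f, inC_evec hf, ?_⟩
      ext c
      rw [col_apply, col_evec, hfx]
    obtain ⟨y, hy, hyx⟩ := h1 hx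
    exact ⟨y, hy, by rw [Phi_one, hyx]⟩
  · rintro ⟨y, hy, rfl⟩
    rw [Phi_one]
    set T : Fin n → Set (Fin d → ℝ) := fun i => {v | ∃ c ∈ B i, v = Pi.single c 1} with hT
    have h1 : y ∈ convexHull ℝ (Set.pi Set.univ T) := by
      rw [convexHull_pi]
      intro i _
      have h2 : y i = ∑ c ∈ B i, y i c • (Pi.single c 1 : Fin d → ℝ) := by
        ext b
        simp only [Finset.sum_apply, Pi.smul_apply, smul_eq_mul, Pi.single_apply, mul_ite, mul_one,
          mul_zero]
        rw [Finset.sum_ite_eq]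
        split_ifs with hb
        · rfl
        · exact hy.supp i b hb
      rw [h2]
      refine (convex_convexHull ℝ (T i)).sum_mem (fun c _ => hy.nonneg i c) ?_
        (fun c hc => subset_convexHull ℝ _ ⟨c, hc, rfl⟩)
      rw [← hy.sum i]
      exact Finset.sum_subset (Finset.subset_univ _) fun c _ hc => hy.supp i c hc
    have h2 : col n d y ∈ col n d '' convexHull ℝ (Set.pi Set.univ T) := ⟨y, h1, rfl⟩
    rw [LinearMap.image_convexHull] at h2
    refine convexHull_mono ?_ h2
    rintro _ ⟨g, hg, rfl⟩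
    have h3 : ∀ i, ∃ c ∈ B i, g i = Pi.single c 1 := fun i => hg i (Set.mem_univ i)
    choose f hf hgf using h3
    refine ⟨f, hf, fun k => ?_⟩
    rw [col_apply, ← col_evec]
    refine Finset.sum_congr rfl fun i _ => ?_
    rw [hgf i, evec, Pi.single_apply]
    by_cases h : f i = k
    · rw [if_pos h, if_pos h.symm]
    · rw [if_neg h, if_neg fun h' => h h'.symm]

/-- decompositions in one independent cell are equal -/
theorem eq_of_ind {B : Fin n → Finset (Fin d)} (hB : Ind B) {y z : Fin n → Fin d → ℝ}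
    (hy : InC B y) (hz : InC B z) (h : Phi (fun _ => 1) y = Phi (fun _ => 1) z) : y = z := by
  have h1 : y - z ∈ dirs B := by
    refine ⟨fun i => ?_, fun i c hc => ?_⟩
    · simp [Finset.sum_sub_distrib, hy.sum, hz.sum]
    · simp [hy.supp i c hc, hz.supp i c hc]
  have h2 : col n d (y - z) = 0 := by
    rw [map_sub, ← Phi_one, ← Phi_one, h, sub_self]
  exact sub_eq_zero.1 (hB _ h1 h2)

theorem finrank_dirs {B : Fin n → Finset (Fin d)} (hne : ∀ i, (B i).Nonempty) :
    Module.finrank ℝ (dirs B) ≤ ∑ i, ((B i).card - 1) := by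
  classical
  choose b hb using hne
  set ι := Σ i : Fin n, {c // c ∈ (B i).erase (b i)}
  have hcard : Fintype.card ι = ∑ i, ((B i).card - 1) := by
    rw [Fintype.card_sigma]
    refine Finset.sum_congr rfl fun i _ => ?_
    rw [Fintype.card_coe, Finset.card_erase_of_mem (hb i)]
  set R : dirs B →ₗ[ℝ] (ι → ℝ) :=
    { toFun := fun δ p => δ.1 p.1 p.2.1
      map_add' := fun _ _ => rfl
      map_smul' := fun _ _ => rfl } with hR
  have hinj : Function.Injective R := by
    rw [← LinearMap.ker_eq_bot, LinearMap.ker_eq_bot']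
    intro δ hδ
    apply Subtype.ext
    ext i c
    have h0 : ∀ c, c ≠ b i → δ.1 i c = 0 := by
      intro c hc
      by_cases hcB : c ∈ B i
      · exact congrFun hδ ⟨i, ⟨c, Finset.mem_erase.2 ⟨hc, hcB⟩⟩⟩
      · exact δ.2.2 i c hcB
    by_cases hc : c = b i
    · have h1 := δ.2.1 i
      rw [Finset.sum_eq_single (b i) (fun c _ hc => h0 c hc) (by simp)] at h1
      rw [hc]
      exact h1
    · exact h0 c hc
  have := LinearMap.finrank_le_finrank_of_injective hinj
  rwa [Module.finrank_fintype_fun_eq_card, hcard] at this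

/-- fine cells are independent -/
theorem ind_of_fine {B : Fin n → Finset (Fin d)} (hne : ∀ i, (B i).Nonempty)
    (hcard : ∑ i, ((B i).card - 1) = d - 1)
    (hrank : Module.finrank ℝ (vectorSpan ℝ (convexHull ℝ (VB B))) = d - 1) : Ind B := by
  classical
  set L : dirs B →ₗ[ℝ] (Fin d → ℝ) := (col n d).comp (dirs B).subtype with hL
  have h1 : vectorSpan ℝ (convexHull ℝ (VB B)) ≤ LinearMap.range L := by
    rw [← direction_affineSpan, affineSpan_convexHull, direction_affineSpan, vectorSpan_def,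
      Submodule.span_le]
    rintro _ ⟨x, ⟨f, hf, hfx⟩, x', ⟨f', hf', hfx'⟩, rfl⟩
    have hmem : evec f - evec f' ∈ dirs B := by
      have hy := inC_evec hf
      have hz := inC_evec hf'
      refine ⟨fun i => ?_, fun i c hc => ?_⟩
      · simp [Finset.sum_sub_distrib, hy.sum, hz.sum]
      · simp [hy.supp i c hc, hz.supp i c hc]
    refine ⟨⟨_, hmem⟩, ?_⟩
    ext c
    simp only [hL, LinearMap.comp_apply, Submodule.subtype_apply, Pi.sub_apply,
      col_apply, vsub_eq_sub, hfx, hfx']
    rw [Finset.sum_sub_distrib, col_evec, col_evec]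
  have h2 := Submodule.finrank_mono h1
  have h3 := LinearMap.finrank_range_add_finrank_ker L
  have h4 := finrank_dirs hne
  have h5 : Module.finrank ℝ (LinearMap.ker L) = 0 := by omega
  have h6 : LinearMap.ker L = ⊥ := Submodule.finrank_eq_zero.1 h5
  intro δ hδ hcol
  have h7 : (⟨δ, hδ⟩ : dirs B) ∈ LinearMap.ker L := hcol
  rw [h6, Submodule.mem_bot] at h7
  exact congrArg Subtype.val h7

theorem InC.mono {B F : Fin n → Finset (Fin d)} {y : Fin n → Fin d → ℝ} (hy : InC F y)
    (h : ∀ i, F i ⊆ B i) : InC B y :=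
  ⟨hy.nonneg, hy.sum, fun i c hc => hy.supp i c fun h' => hc (h i h')⟩

/-- the conditions of the frozen statement on the family `S` of cells -/
structure Froz (S : Finset (Fin n → Finset (Fin d))) : Prop where
  fine : ∀ B ∈ S, (∀ i, (B i).Nonempty) ∧ ∑ i, ((B i).card - 1) = d - 1 ∧
    Module.finrank ℝ (vectorSpan ℝ (convexHull ℝ (VB B))) = d - 1
  cov : ∀ x : Fin d → ℝ, (∀ k, 0 ≤ x k) → ∑ k, x k = (n : ℝ) →
    ∃ B ∈ S, x ∈ convexHull ℝ (VB B)
  face : ∀ B ∈ S, ∀ C ∈ S, convexHull ℝ (VB B) ∩ convexHull ℝ (VB C) = ∅ ∨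
    ∃ F : Fin n → Finset (Fin d), (∀ i, F i ⊆ B i) ∧ (∀ i, F i ⊆ C i) ∧
      convexHull ℝ (VB B) ∩ convexHull ℝ (VB C) = convexHull ℝ (VB F)

variable {S : Finset (Fin n → Finset (Fin d))}

theorem Froz.sys (h : Froz S) : Sys S where
  ind B hB := ind_of_fine (h.fine B hB).1 (h.fine B hB).2.1 (h.fine B hB).2.2
  ne B hB := (h.fine B hB).1

theorem Froz.Cov (h : Froz S) : Cov S fun _ => 1 := by
  intro x hx0 hxs
  obtain ⟨B, hB, hxB⟩ := h.cov x hx0 (by rw [hxs]; simp)
  obtain ⟨y, hy, hyx⟩ := (mem_hull B x).1 hxB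
  exact ⟨y, ⟨B, hB, hy⟩, hyx⟩

theorem Froz.Inj (h : Froz S) : Inj S fun _ => 1 := by
  rintro y ⟨B, hB, hy⟩ z ⟨C, hC, hz⟩ hyz
  have h1 := (mem_hull B _).2 ⟨y, hy, rfl⟩
  have h2 := (mem_hull C _).2 ⟨z, hz, rfl⟩
  rw [← hyz] at h2
  rcases h.face B hB C hC with h0 | ⟨F, hFB, hFC, hF⟩
  · exact absurd (show Phi (fun _ => 1) y ∈ (∅ : Set (Fin d → ℝ)) by rw [← h0]; exact ⟨h1, h2⟩)
      (Set.notMem_empty _)
  · have h3 : Phi (fun _ => 1) y ∈ convexHull ℝ (VB F) := by
      rw [← hF]
      exact ⟨h1, h2⟩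
    obtain ⟨w, hw, hwx⟩ := (mem_hull F _).1 h3
    have e1 := eq_of_ind (h.sys.ind B hB) (hw.mono hFB) hy hwx
    have e2 := eq_of_ind (h.sys.ind C hC) (hw.mono hFC) hz (hwx.trans hyz)
    rw [← e1, ← e2]

theorem Froz.nonempty (h : Froz S) (c0 : Fin d) : (Y S).Nonempty := by
  obtain ⟨y, hy, -⟩ := h.Cov (fun c => if c = c0 then (n : ℝ) else 0)
    (fun c => by split_ifs <;> simp) (by simp)
  exact ⟨y, hy⟩

/-- the sections of the cells -/
def Sec (S : Finset (Fin n → Finset (Fin d))) (f : Fin n → Fin d) : Prop :=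
  ∃ B ∈ S, ∀ i, f i ∈ B i

/-- all sections are compatible -/
theorem Froz.compat (h : Froz S) (c0 : Fin d) {f g : Fin n → Fin d} (hf : Sec S f)
    (hg : Sec S g) (I : Finset (Fin n))
    (hI : ∀ c, (I.filter (fun i => f i = c)).card = (I.filter (fun i => g i = c)).card) :
    ∀ i ∈ I, f i = g i := by
  obtain ⟨B, hB, hf⟩ := hf
  obtain ⟨C, hC, hg⟩ := hg
  intro i hi
  have h1 := parts_eq h.sys (h.nonempty c0) h.Cov h.Inj ⟨B, hB, inC_evec hf⟩
    ⟨C, hC, inC_evec hg⟩ I (fun c => by
      have := hI c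
      simp only [evec, Finset.sum_ite, Finset.sum_const_zero, add_zero, Finset.sum_const,
        nsmul_eq_mul, mul_one]
      exact_mod_cast this) i hi
  have h2 := congrFun h1 (f i)
  simp only [evec, if_true] at h2
  by_contra hne
  rw [if_neg fun h' => hne h'.symm] at h2
  exact one_ne_zero h2

/-- for every set of labels and every content there is a section -/
theorem Froz.exists_sec (h : Froz S) (c0 : Fin d) (I : Finset (Fin n)) (m : Fin d → ℕ)
    (hm : ∑ c, m c = I.card) :
    ∃ f, Sec S f ∧ ∀ c, (I.filter (fun i => f i = c)).card = m c := by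
  classical
  obtain ⟨y, ⟨B, hB, hy⟩, hyx⟩ := cov_nonneg h.sys (h.nonempty c0) h.Cov h.Inj c0
    (fun j => if j ∈ I then 1 else 0) (fun j => by split_ifs <;> norm_num)
    (fun j => by split_ifs <;> norm_num) (fun c => (m c : ℝ)) (fun c => Nat.cast_nonneg _)
    (by
      rw [← Nat.cast_sum, hm]
      simp)
  have hne := (h.fine B hB).1
  have hBi := h.sys.ind B hB
  have hyI : ∀ c, ∑ i ∈ I, y i c = (m c : ℝ) := by
    intro c
    have := congrFun hyx c
    unfold Phi at this
    simpa [Finset.sum_ite_mem] using this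
  -- integral entries
  have hint : ∀ i ∈ I, ∀ c1 ∈ B i, ∃ k : ℤ, y i c1 = k := by
    intro i hi c1 hc1
    obtain ⟨e, he1, he2⟩ := exists_functional hBi hne i (fun c => if c = c1 then 1 else 0)
    obtain ⟨r, hr⟩ : ∃ r : Fin d → ℤ, ∀ c, r c = if (1 : ℝ) ≤ e c then 1 else 0 := ⟨_, fun _ => rfl⟩
    have hr2 : ∀ j, j ≠ i → ∀ c ∈ B j, ∀ c' ∈ B j, r c = r c' := by
      intro j hj c hc c' hc'
      rw [hr, hr, he2 j hj c hc c' hc']
    choose b hb using hne
    have h1 : ∑ c, (r c : ℝ) * (m c : ℝ) = y i c1 + ∑ j ∈ I.erase i, (r (b j) : ℝ) := by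
      have h2 : ∀ c, (r c : ℝ) * (m c : ℝ) = ∑ j ∈ I, (r c : ℝ) * y j c := by
        intro c
        rw [← hyI c, Finset.mul_sum]
      simp only [h2]
      rw [Finset.sum_comm, ← Finset.add_sum_erase _ _ hi]
      congr 1
      · rw [Finset.sum_eq_single c1]
        · have : r c1 = 1 := by
            rw [hr, he1 c1 hc1]
            simp
          rw [this]
          simp
        · intro c _ hc
          by_cases hcB : c ∈ B i
          · have : r c = 0 := by
              rw [hr, he1 c hcB, if_neg hc]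
              norm_num
            rw [this]
            simp
          · rw [hy.supp i c hcB, mul_zero]
        · simp
      · refine Finset.sum_congr rfl fun j hj => ?_
        have hji : j ≠ i := Finset.ne_of_mem_erase hj
        have h3 : ∀ c, (r c : ℝ) * y j c = (r (b j) : ℝ) * y j c := by
          intro c
          by_cases hc : c ∈ B j
          · rw [hr2 j hji c hc (b j) (hb j)]
          · rw [hy.supp j c hc, mul_zero, mul_zero]
        simp only [h3]
        rw [← Finset.mul_sum, hy.sum, mul_one]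
    refine ⟨∑ c, r c * m c - ∑ j ∈ I.erase i, r (b j), ?_⟩
    push_cast
    linarith
  have hint' : ∀ i ∈ I, ∀ c, y i c = 0 ∨ y i c = 1 := by
    intro i hi c
    by_cases hc : c ∈ B i
    · obtain ⟨k, hk⟩ := hint i hi c hc
      have h0 := hy.nonneg i c
      have h1 : y i c ≤ 1 := by
        rw [← hy.sum i]
        exact Finset.single_le_sum (fun c _ => hy.nonneg i c) (Finset.mem_univ c)
      rw [hk] at h0 h1
      have h2 : (0 : ℤ) ≤ k := by exact_mod_cast h0
      have h3 : k ≤ (1 : ℤ) := by exact_mod_cast h1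
      rcases (by omega : k = 0 ∨ k = 1) with h | h
      · left; rw [hk, h]; simp
      · right; rw [hk, h]; simp
    · exact Or.inl (hy.supp i c hc)
  have hex : ∀ i, ∃ c ∈ B i, i ∈ I → y i c = 1 := by
    intro i
    by_cases hi : i ∈ I
    · by_contra hcon
      push Not at hcon
      have h0 : ∑ c, y i c = 0 := by
        refine Finset.sum_eq_zero fun c _ => ?_
        by_cases hc : c ∈ B i
        · exact (hint' i hi c).resolve_right (hcon c hc).2
        · exact hy.supp i c hc
      rw [hy.sum i] at h0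
      exact one_ne_zero h0
    · obtain ⟨c, hc⟩ := hne i
      exact ⟨c, hc, fun h => absurd h hi⟩
  choose f hfB hf using hex
  refine ⟨f, ⟨B, hB, hfB⟩, fun c => ?_⟩
  have h1 : ∀ i ∈ I, y i c = if f i = c then 1 else 0 := by
    intro i hi
    split_ifs with h
    · rw [← h, hf i hi]
    · rcases hint' i hi c with h1 | h1
      · exact h1
      · exfalso
        have h2 : y i c + y i (f i) ≤ ∑ c, y i c := by
          have : ({c, f i} : Finset (Fin d)) ⊆ Finset.univ := Finset.subset_univ _
          calc y i c + y i (f i) = ∑ b ∈ ({c, f i} : Finset (Fin d)), y i b := by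
                rw [Finset.sum_pair (fun h' => h h'.symm)]
            _ ≤ _ := Finset.sum_le_sum_of_subset_of_nonneg this fun b _ _ => hy.nonneg i b
        rw [hy.sum i, h1, hf i hi] at h2
        norm_num at h2
  have h2 := hyI c
  rw [Finset.sum_congr rfl h1, Finset.sum_ite, Finset.sum_const_zero, add_zero, Finset.sum_const,
    nsmul_eq_mul, mul_one] at h2
  exact_mod_cast h2

end Pool.Agent.Helper27.SO
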