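import Pool.Agent.Helper27.SO.Cell

/-!
# SO: from equal weights to all weights (the Cayley trick by a contraction)
-/

open scoped BigOperators Topology
open Set Filter

namespace Pool.Agent.Helper27.SO

variable {n d : ℕ}

/-- all decompositions -/
def Y (S : Finset (Fin n → Finset (Fin d))) : Set (Fin n → Fin d → ℝ) := {y | ∃ B ∈ S, InC B y}

/-- the l1 norm -/
def N1 (u : Fin d → ℝ) : ℝ := ∑ c, |u c|

theorem N1_nonneg (u : Fin d → ℝ) : 0 ≤ N1 u := Finset.sum_nonneg fun _ _ => abs_nonneg _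

theorem N1_add (u v : Fin d → ℝ) : N1 (u + v) ≤ N1 u + N1 v := by
  unfold N1
  rw [← Finset.sum_add_distrib]
  exact Finset.sum_le_sum fun c _ => abs_add_le _ _

theorem N1_smul (r : ℝ) (u : Fin d → ℝ) : N1 (r • u) = |r| * N1 u := by
  unfold N1
  rw [Finset.mul_sum]
  exact Finset.sum_congr rfl fun c _ => by simp [abs_mul]

theorem N1_neg (u : Fin d → ℝ) : N1 (-u) = N1 u := by
  unfold N1
  exact Finset.sum_congr rfl fun c _ => by simp

theorem N1_sub_comm (u v : Fin d → ℝ) : N1 (u - v) = N1 (v - u) := by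
  rw [← N1_neg, neg_sub]

theorem N1_eq_zero {u : Fin d → ℝ} (h : N1 u = 0) : u = 0 := by
  ext c
  have := (Finset.sum_eq_zero_iff_of_nonneg (fun c _ => abs_nonneg (u c))).1 h c (Finset.mem_univ c)
  simpa using this

theorem continuous_N1 : Continuous (N1 : (Fin d → ℝ) → ℝ) := by
  unfold N1
  fun_prop

/-- the cells are fine -/
structure Sys (S : Finset (Fin n → Finset (Fin d))) : Prop where
  ind : ∀ B ∈ S, Ind B
  ne : ∀ B ∈ S, ∀ i, (B i).Nonempty

def Cov (S : Finset (Fin n → Finset (Fin d))) (lam : Fin n → ℝ) : Prop :=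
  ∀ x : Fin d → ℝ, (∀ c, 0 ≤ x c) → ∑ c, x c = ∑ i, lam i → ∃ y ∈ Y S, Phi lam y = x

def Inj (S : Finset (Fin n → Finset (Fin d))) (lam : Fin n → ℝ) : Prop :=
  ∀ y ∈ Y S, ∀ z ∈ Y S, Phi lam y = Phi lam z → y = z

def Lip (S : Finset (Fin n → Finset (Fin d))) (lam : Fin n → ℝ) : Prop :=
  ∀ y ∈ Y S, ∀ z ∈ Y S, ∀ i, lam i * N1 (y i - z i) ≤ N1 (Phi lam y - Phi lam z)

theorem continuous_Phi (lam : Fin n → ℝ) :
    Continuous (Phi lam : (Fin n → Fin d → ℝ) → Fin d → ℝ) := by
  unfold Phi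
  fun_prop

theorem compact_cell (B : Fin n → Finset (Fin d)) : IsCompact {y | InC B y} := by
  have h1 : {y | InC B y} = (((⋂ i, ⋂ c, {y : Fin n → Fin d → ℝ | 0 ≤ y i c}) ∩
      ⋂ i, {y : Fin n → Fin d → ℝ | ∑ c, y i c = 1}) ∩
      ⋂ i, ⋂ c, ⋂ (_ : c ∉ B i), {y : Fin n → Fin d → ℝ | y i c = 0}) := by
    ext y
    simp only [Set.mem_inter_iff, Set.mem_iInter, Set.mem_ofPred_eq]
    constructor
    · exact fun h => ⟨⟨h.nonneg, h.sum⟩, h.supp⟩
    · exact fun h => ⟨h.1.1, h.1.2, h.2⟩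
  have hcl : IsClosed {y | InC B y} := by
    rw [h1]
    refine IsClosed.inter (IsClosed.inter ?_ ?_) ?_
    · exact isClosed_iInter fun i => isClosed_iInter fun c =>
        isClosed_le continuous_const (by fun_prop)
    · exact isClosed_iInter fun i => isClosed_eq (by fun_prop) continuous_const
    · exact isClosed_iInter fun i => isClosed_iInter fun c => isClosed_iInter fun _ =>
        isClosed_eq (by fun_prop) continuous_const
  have hbox : IsCompact (Set.pi Set.univ fun _ : Fin n =>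
      Set.pi Set.univ fun _ : Fin d => Set.Icc (0 : ℝ) 1) :=
    isCompact_univ_pi fun _ => isCompact_univ_pi fun _ => isCompact_Icc
  refine hbox.of_isClosed_subset hcl ?_
  intro y hy i _ c _
  refine ⟨hy.nonneg i c, ?_⟩
  rw [← hy.sum i]
  exact Finset.single_le_sum (fun c _ => hy.nonneg i c) (Finset.mem_univ c)

theorem compact_Y (S : Finset (Fin n → Finset (Fin d))) : IsCompact (Y S) := by
  have : Y S = ⋃ B ∈ S, {y | InC B y} := by
    ext y
    simp [Y]
  rw [this]
  exact S.isCompact_biUnion fun B _ => compact_cell B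

theorem sum_Phi {B : Fin n → Finset (Fin d)} {y : Fin n → Fin d → ℝ} (hy : InC B y)
    (lam : Fin n → ℝ) : ∑ c, Phi lam y c = ∑ i, lam i := by
  unfold Phi
  rw [Finset.sum_comm]
  refine Finset.sum_congr rfl fun i _ => ?_
  rw [← Finset.mul_sum, hy.sum, mul_one]

theorem Phi_nonneg {B : Fin n → Finset (Fin d)} {y : Fin n → Fin d → ℝ} (hy : InC B y)
    {lam : Fin n → ℝ} (hlam : ∀ i, 0 ≤ lam i) (c : Fin d) : 0 ≤ Phi lam y c :=
  Finset.sum_nonneg fun i _ => mul_nonneg (hlam i) (hy.nonneg i c)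

variable {S : Finset (Fin n → Finset (Fin d))} {lam : Fin n → ℝ}

theorem lip_of (hS : Sys S) (hlam : ∀ i, 0 ≤ lam i) (hC : Cov S lam) (hI : Inj S lam) :
    Lip S lam := by
  intro y hy z hz i
  set x : ℝ → Fin d → ℝ := fun t => Phi lam y + t • (Phi lam z - Phi lam y) with hx
  have hxc : Continuous x := by fun_prop
  set K : ℝ := N1 (Phi lam z - Phi lam y) with hK
  obtain ⟨By, hBy, hBy'⟩ := hy
  obtain ⟨Bz, hBz, hBz'⟩ := hz
  have hy : y ∈ Y S := ⟨By, hBy, hBy'⟩
  have hz : z ∈ Y S := ⟨Bz, hBz, hBz'⟩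
  -- the segment stays in the simplex
  have hseg : ∀ t, 0 ≤ t → t ≤ 1 → ∃ B ∈ S, ∃ w, InC B w ∧ Phi lam w = x t := by
    intro t ht0 ht1
    obtain ⟨w, ⟨B, hB, hw⟩, hwx⟩ := hC (x t) (fun c => by
        have h1 := Phi_nonneg hBy' hlam c
        have h2 := Phi_nonneg hBz' hlam c
        have : x t c = (1 - t) * Phi lam y c + t * Phi lam z c := by
          simp [hx]; ring
        rw [this]
        exact add_nonneg (mul_nonneg (by linarith) h1) (mul_nonneg ht0 h2)) (by
        have : ∑ c, x t c = ∑ c, Phi lam y c + t * (∑ c, Phi lam z c - ∑ c, Phi lam y c) := by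
          simp [hx, Finset.sum_add_distrib, Finset.mul_sum, Finset.sum_sub_distrib, mul_sub]
        rw [this, sum_Phi hBy', sum_Phi hBz']
        ring)
    exact ⟨B, hB, w, hw, hwx⟩
  -- the closed sets
  set Z : Set (ℝ × (Fin n → Fin d → ℝ)) := (Set.Icc (0 : ℝ) 1 ×ˢ Y S) ∩
    {p | Phi lam p.2 = x p.1 ∧ lam i * N1 (p.2 i - y i) ≤ p.1 * K} with hZ
  have hZc : IsCompact Z := by
    refine (isCompact_Icc.prod (compact_Y S)).inter_right ?_
    have e1 : Continuous fun p : ℝ × (Fin n → Fin d → ℝ) => Phi lam p.2 :=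
      (continuous_Phi lam).comp continuous_snd
    have e2 : Continuous fun p : ℝ × (Fin n → Fin d → ℝ) => x p.1 := hxc.comp continuous_fst
    have e3 : Continuous fun p : ℝ × (Fin n → Fin d → ℝ) => N1 (p.2 i - y i) :=
      continuous_N1.comp (by fun_prop)
    exact (isClosed_eq e1 e2).inter (isClosed_le (continuous_const.mul e3)
      (continuous_fst.mul continuous_const))
  set s : Set ℝ := Prod.fst '' Z with hs
  have hsc : IsClosed s := (hZc.image continuous_fst).isClosed
  have hsub : Set.Icc (0 : ℝ) 1 ⊆ s := by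
    refine IsClosed.Icc_subset_of_forall_exists_gt (hsc.inter isClosed_Icc) ?_ ?_
    · refine ⟨(0, y), ⟨⟨⟨le_rfl, zero_le_one⟩, hy⟩, ?_, ?_⟩, rfl⟩
      · simp [hx]
      · simp [N1]
    · rintro t ⟨⟨⟨t', w⟩, ⟨⟨ht01, hw⟩, hwx, hwl⟩, rfl⟩, ht0, ht1⟩ u hu
      simp only at hw hwx hwl ht0 ht1 hu ⊢
      have hu' : t' < u := hu
      -- a cell which contains points to the right
      have hcl : ∀ B : Fin n → Finset (Fin d), IsClosed {t | x t ∈ Phi lam '' {y | InC B y}} :=
        fun B => (((compact_cell B).image (continuous_Phi lam)).isClosed).preimage hxc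
      have hfr : ∃ B ∈ S, ∃ᶠ r in 𝓝[>] t', r ∈ {t | x t ∈ Phi lam '' {y | InC B y}} := by
        by_contra hcon
        push Not at hcon
        have h1 : ∀ᶠ r in 𝓝[>] t', ∀ B ∈ S, r ∉ {t | x t ∈ Phi lam '' {y | InC B y}} := by
          rw [Filter.eventually_all_finset]
          exact fun B hB => hcon B hB
        have h2 : ∀ᶠ r in 𝓝[>] t', r ∈ Set.Ioc t' 1 := Ioc_mem_nhdsGT ht1
        obtain ⟨r, hr1, hr2⟩ := (h1.and h2).exists
        obtain ⟨B, hB, w', hw', hwx'⟩ := hseg r (ht0.trans hr2.1.le) hr2.2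
        exact hr1 B hB ⟨w', hw', hwx'⟩
      obtain ⟨B, hB, hfrB⟩ := hfr
      have ht : t' ∈ {t | x t ∈ Phi lam '' {y | InC B y}} := by
        have : t' ∈ closure {t | x t ∈ Phi lam '' {y | InC B y}} :=
          mem_closure_iff_frequently.2 (hfrB.filter_mono nhdsWithin_le_nhds)
        rwa [(hcl B).closure_eq] at this
      obtain ⟨w0, hw0, hw0x⟩ := ht
      have hw0w : w0 = w := hI w0 ⟨B, hB, hw0⟩ w hw (by rw [hw0x, hwx])
      have hwB : InC B w := hw0w ▸ hw0
      obtain ⟨r, hrB, hr⟩ := (hfrB.and_eventually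
        (Ioc_mem_nhdsGT (lt_min hu' ht1))).exists
      obtain ⟨w', hw', hwx'⟩ := hrB
      have hr1 : r ≤ 1 := hr.2.trans (min_le_right _ _)
      have hr2 : r ≤ u := hr.2.trans (min_le_left _ _)
      refine ⟨r, ⟨(r, w'), ⟨⟨⟨ht0.trans hr.1.le, hr1⟩, ⟨B, hB, hw'⟩⟩, hwx', ?_⟩, rfl⟩, hr.1, hr2⟩
      have h1 := lip_cell (hS.ind B hB) (hS.ne B hB) hw' hwB lam i
      have h2 : ∑ c, |Phi lam w' c - Phi lam w c| = (r - t') * K := by
        have h3 : Phi lam w' - Phi lam w = (r - t') • (Phi lam z - Phi lam y) := by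
          rw [hwx', hwx, hx]
          ext c
          simp
          ring
        have h4 : ∑ c, |Phi lam w' c - Phi lam w c| = N1 (Phi lam w' - Phi lam w) := rfl
        rw [h4, h3, N1_smul, abs_of_pos (sub_pos.2 hr.1)]
      have h5 : N1 (w' i - y i) ≤ N1 (w' i - w i) + N1 (w i - y i) := by
        have := N1_add (w' i - w i) (w i - y i)
        rwa [sub_add_sub_cancel] at this
      have h6 : lam i * N1 (w' i - w i) ≤ (r - t') * K := by
        rw [← h2]
        exact h1
      have h7 := mul_le_mul_of_nonneg_left h5 (hlam i)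
      simp only
      linarith
  obtain ⟨⟨t, w⟩, ⟨⟨-, hw⟩, hwx, hwl⟩, ht⟩ := hsub ⟨zero_le_one, le_rfl⟩
  simp only at ht hw hwx hwl
  subst ht
  have hwz : w = z := hI w hw z hz (by rw [hwx, hx]; ext c; simp)
  rw [hwz, one_mul] at hwl
  rw [N1_sub_comm, N1_sub_comm (Phi lam y)]
  exact hwl

theorem Phi_update (lam : Fin n → ℝ) (i : Fin n) (r : ℝ) (y : Fin n → Fin d → ℝ) :
    Phi (Function.update lam i r) y = Phi lam y - (lam i - r) • y i := by
  classical
  ext c
  unfold Phi
  simp only [Pi.sub_apply, Pi.smul_apply, smul_eq_mul]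
  rw [← Finset.add_sum_erase _ _ (Finset.mem_univ i),
    ← Finset.add_sum_erase _ (fun j => lam j * y j c) (Finset.mem_univ i)]
  have h1 : ∑ j ∈ Finset.univ.erase i, Function.update lam i r j * y j c =
      ∑ j ∈ Finset.univ.erase i, lam j * y j c := by
    refine Finset.sum_congr rfl fun j hj => ?_
    rw [Function.update_of_ne (Finset.ne_of_mem_erase hj)]
  rw [h1, Function.update_self]
  ring

theorem inj_update (hI : Inj S lam) (hL : Lip S lam) (i : Fin n) {r : ℝ} (hr : 0 < r)
    (hr' : r ≤ lam i) : Inj S (Function.update lam i r) := by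
  intro y hy z hz h
  rw [Phi_update, Phi_update] at h
  have h1 : Phi lam y - Phi lam z = (lam i - r) • (y i - z i) := by
    rw [smul_sub]
    rw [sub_eq_sub_iff_add_eq_add] at h ⊢
    rw [add_comm ((lam i - r) • y i)]
    exact h
  have h2 := hL y hy z hz i
  rw [h1, N1_smul, abs_of_nonneg (by linarith)] at h2
  have h3 : N1 (y i - z i) = 0 := by
    have := N1_nonneg (y i - z i)
    nlinarith
  have h4 := N1_eq_zero h3
  rw [h4, smul_zero, sub_eq_zero] at h1
  exact hI y hy z hz h1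

theorem cov_update (hne : (Y S).Nonempty) (hC : Cov S lam) (hL : Lip S lam) (i : Fin n) {r : ℝ}
    (hr : 0 < r) (hr' : r ≤ lam i) : Cov S (Function.update lam i r) := by
  classical
  intro x' hx0 hxs
  have hsum : ∑ j, Function.update lam i r j = ∑ j, lam j - (lam i - r) := by
    rw [Finset.sum_update_of_mem (Finset.mem_univ i),
      ← Finset.add_sum_erase _ (fun j => lam j) (Finset.mem_univ i),
      Finset.sdiff_singleton_eq_erase]
    ring
  rw [hsum] at hxs
  have hs0 : 0 ≤ lam i - r := by linarith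
  -- minimise the displacement
  set h : (Fin n → Fin d → ℝ) → ℝ := fun y => N1 (x' + (lam i - r) • y i - Phi lam y) with hh
  have hcont : Continuous h := by
    have e1 := continuous_Phi (n := n) (d := d) lam
    exact continuous_N1.comp (by fun_prop)
  obtain ⟨y, hy, hmin⟩ := (compact_Y S).exists_isMinOn hne hcont.continuousOn
  obtain ⟨B, hB, hyB⟩ := hy
  have hy : y ∈ Y S := ⟨B, hB, hyB⟩
  obtain ⟨y', hy', hy'x⟩ := hC (x' + (lam i - r) • y i) (fun c => by
      simp only [Pi.add_apply, Pi.smul_apply, smul_eq_mul]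
      exact add_nonneg (hx0 c) (mul_nonneg hs0 (hyB.nonneg i c))) (by
      simp only [Pi.add_apply, Pi.smul_apply, smul_eq_mul]
      rw [Finset.sum_add_distrib, ← Finset.mul_sum, hyB.sum, hxs]
      ring)
  have h1 : h y ≤ h y' := hmin hy'
  have h2 : h y' = (lam i - r) * N1 (y' i - y i) := by
    have : x' + (lam i - r) • y' i - Phi lam y' = (lam i - r) • (y' i - y i) := by
      rw [hy'x, smul_sub]
      abel
    simp only [hh]
    rw [this, N1_smul, abs_of_nonneg hs0]
  have h3 : h y = N1 (Phi lam y' - Phi lam y) := by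
    simp only [hh]
    rw [hy'x]
  have h4 := hL y' hy' y hy i
  have h5 : N1 (y' i - y i) = 0 := by
    have := N1_nonneg (y' i - y i)
    rw [h2, h3] at h1
    nlinarith
  have h6 : Phi lam y' = Phi lam y := by
    have : N1 (Phi lam y' - Phi lam y) = 0 := by
      have h7 := N1_nonneg (Phi lam y' - Phi lam y)
      rw [h2, h3, h5, mul_zero] at h1
      linarith
    exact sub_eq_zero.1 (N1_eq_zero this)
  refine ⟨y, hy, ?_⟩
  rw [Phi_update, ← h6, hy'x]
  abel

/-- all positive weights `≤ 1` -/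
theorem all_pos (hS : Sys S) (hne : (Y S).Nonempty) (hC : Cov S fun _ => 1)
    (hI : Inj S fun _ => 1) (lam : Fin n → ℝ) (h0 : ∀ i, 0 < lam i) (h1 : ∀ i, lam i ≤ 1) :
    Cov S lam ∧ Lip S lam := by
  classical
  have key : ∀ J : Finset (Fin n), Cov S (fun i => if i ∈ J then lam i else 1) ∧
      Inj S (fun i => if i ∈ J then lam i else 1) ∧
      Lip S (fun i => if i ∈ J then lam i else 1) := by
    intro J
    induction J using Finset.induction_on with
    | empty =>
      simp only [Finset.notMem_empty, if_false]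
      exact ⟨hC, hI, lip_of hS (fun _ => zero_le_one) hC hI⟩
    | insert i J hi ih =>
      obtain ⟨c, j, l⟩ := ih
      have e : (fun k => if k ∈ insert i J then lam k else 1) =
          Function.update (fun k => if k ∈ J then lam k else 1) i (lam i) := by
        ext k
        by_cases hk : k = i
        · subst hk
          simp
        · simp [Finset.mem_insert, hk]
      rw [e]
      have c' := cov_update hne c l i (h0 i) (by rw [if_neg hi]; exact h1 i)
      have j' := inj_update j l i (h0 i) (by rw [if_neg hi]; exact h1 i)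
      refine ⟨c', j', lip_of hS (fun k => ?_) c' j'⟩
      by_cases hk : k = i
      · subst hk
        simp [(h0 k).le]
      · rw [Function.update_of_ne hk]
        split_ifs
        · exact (h0 k).le
        · exact zero_le_one
  have h2 := (key Finset.univ).1
  have h3 := (key Finset.univ).2.2
  simp only [Finset.mem_univ, if_true] at h2 h3
  exact ⟨h2, h3⟩

/-- all weights between 0 and 1 -/
theorem all_nonneg (hS : Sys S) (hne : (Y S).Nonempty) (hC : Cov S fun _ => 1)
    (hI : Inj S fun _ => 1) (lam : Fin n → ℝ) (h0 : ∀ i, 0 ≤ lam i) (h1 : ∀ i, lam i ≤ 1) :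
    Lip S lam := by
  intro y hy z hz i
  have ht : Tendsto (fun k : ℕ => 1 / ((k : ℝ) + 1)) atTop (𝓝 0) :=
    tendsto_one_div_add_atTop_nhds_zero_nat
  have hmu : ∀ k : ℕ, Lip S (fun j => max (lam j) (1 / ((k : ℝ) + 1))) := by
    intro k
    have hk : (0 : ℝ) < 1 / ((k : ℝ) + 1) := by positivity
    refine (all_pos hS hne hC hI _ (fun j => lt_max_of_lt_right hk)
      (fun j => max_le (h1 j) ?_)).2
    rw [div_le_one (by positivity)]
    have : (0 : ℝ) ≤ k := Nat.cast_nonneg k
    linarith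
  have e1 : Tendsto (fun k : ℕ => max (lam i) (1 / ((k : ℝ) + 1)) * N1 (y i - z i)) atTop
      (𝓝 (max (lam i) 0 * N1 (y i - z i))) :=
    (tendsto_const_nhds.max ht).mul tendsto_const_nhds
  have e2 : Tendsto (fun k : ℕ => N1 (Phi (fun j => max (lam j) (1 / ((k : ℝ) + 1))) y -
      Phi (fun j => max (lam j) (1 / ((k : ℝ) + 1))) z)) atTop
      (𝓝 (N1 (Phi (fun j => max (lam j) 0) y - Phi (fun j => max (lam j) 0) z))) := by
    have hcont : Continuous fun e : ℝ => N1 (Phi (fun j => max (lam j) e) y -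
        Phi (fun j => max (lam j) e) z) := by
      refine continuous_N1.comp ?_
      unfold Phi
      fun_prop
    exact (hcont.tendsto 0).comp ht
  have h3 := le_of_tendsto_of_tendsto' e1 e2 (fun k => hmu k y hy z hz i)
  have h4 : (fun j => max (lam j) 0) = lam := by
    ext j
    exact max_eq_left (h0 j)
  rw [h4, max_eq_left (h0 i)] at h3
  exact h3

/-- covering for all weights between 0 and 1 -/
theorem cov_nonneg (hS : Sys S) (hne : (Y S).Nonempty) (hC : Cov S fun _ => 1)
    (hI : Inj S fun _ => 1) (c0 : Fin d) (lam : Fin n → ℝ) (h0 : ∀ i, 0 ≤ lam i)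
    (h1 : ∀ i, lam i ≤ 1) : Cov S lam := by
  classical
  intro x hx0 hxs
  set Z : Set (ℝ × (Fin n → Fin d → ℝ)) := (Set.Icc (0 : ℝ) 1 ×ˢ Y S) ∩
    {p | Phi (fun j => max (lam j) p.1) p.2 =
      x + (∑ j, max (lam j) p.1 - ∑ j, lam j) • (Pi.single c0 1 : Fin d → ℝ)} with hZ
  have hZc : IsCompact Z := by
    refine (isCompact_Icc.prod (compact_Y S)).inter_right ?_
    refine isClosed_eq ?_ ?_
    · unfold Phi
      fun_prop
    · fun_prop
  have hsc : IsClosed (Prod.fst '' Z) := (hZc.image continuous_fst).isClosed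
  have hsub : Set.Ioc (0 : ℝ) 1 ⊆ Prod.fst '' Z := by
    intro t ht
    have hmono : ∑ j, lam j ≤ ∑ j, max (lam j) t := Finset.sum_le_sum fun j _ => le_max_left _ _
    obtain ⟨y, hy, hyx⟩ := (all_pos hS hne hC hI (fun j => max (lam j) t)
      (fun j => lt_max_of_lt_right ht.1) (fun j => max_le (h1 j) ht.2)).1
      (x + (∑ j, max (lam j) t - ∑ j, lam j) • (Pi.single c0 1 : Fin d → ℝ)) (fun c => by
        simp only [Pi.add_apply, Pi.smul_apply, smul_eq_mul]
        refine add_nonneg (hx0 c) (mul_nonneg (by linarith) ?_)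
        by_cases h : c = c0
        · subst h; simp
        · simp [h]) (by
        simp only [Pi.add_apply, Pi.smul_apply, smul_eq_mul]
        rw [Finset.sum_add_distrib, ← Finset.mul_sum, hxs]
        simp)
    exact ⟨(t, y), ⟨⟨⟨ht.1.le, ht.2⟩, hy⟩, hyx⟩, rfl⟩
  have h2 : (0 : ℝ) ∈ Prod.fst '' Z := by
    have h3 : Set.Icc (0 : ℝ) 1 ⊆ Prod.fst '' Z := by
      rw [← closure_Ioc (zero_ne_one' ℝ)]
      exact closure_minimal hsub hsc
    exact h3 ⟨le_rfl, zero_le_one⟩
  obtain ⟨⟨t, y⟩, ⟨⟨-, hy⟩, hyx⟩, ht⟩ := h2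
  simp only at ht hy hyx
  subst ht
  have h4 : ∀ j, max (lam j) 0 = lam j := fun j => max_eq_left (h0 j)
  refine ⟨y, hy, ?_⟩
  have h5 : Phi (fun j => max (lam j) 0) y =
      x + (∑ j, max (lam j) 0 - ∑ j, lam j) • (Pi.single c0 1 : Fin d → ℝ) := hyx
  simp only [h4, sub_self, zero_smul, add_zero] at h5
  exact h5

/-- **The Cayley trick**: if the partial sums over `I` agree then the parts agree -/
theorem parts_eq (hS : Sys S) (hne : (Y S).Nonempty) (hC : Cov S fun _ => 1)
    (hI : Inj S fun _ => 1) {y z : Fin n → Fin d → ℝ} (hy : y ∈ Y S) (hz : z ∈ Y S)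
    (I : Finset (Fin n)) (h : ∀ c, ∑ i ∈ I, y i c = ∑ i ∈ I, z i c) :
    ∀ i ∈ I, y i = z i := by
  classical
  intro i hi
  have h1 := all_nonneg hS hne hC hI (fun j => if j ∈ I then 1 else 0)
    (fun j => by split_ifs <;> norm_num) (fun j => by split_ifs <;> norm_num) y hy z hz i
  have h2 : ∀ w : Fin n → Fin d → ℝ, Phi (fun j => if j ∈ I then 1 else 0) w =
      fun c => ∑ i ∈ I, w i c := by
    intro w
    ext c
    unfold Phi
    simp [Finset.sum_ite_mem]
  have h3 : N1 (Phi (fun j => if j ∈ I then (1 : ℝ) else 0) y -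
      Phi (fun j => if j ∈ I then (1 : ℝ) else 0) z) = 0 := by
    rw [h2, h2]
    have : (fun c => ∑ i ∈ I, y i c) - (fun c => ∑ i ∈ I, z i c) = (0 : Fin d → ℝ) := by
      ext c
      simp [h c]
    rw [this]
    simp [N1]
  rw [h3] at h1
  simp only [hi, if_true, one_mul] at h1
  exact sub_eq_zero.1 (N1_eq_zero (le_antisymm h1 (N1_nonneg _)))

end Pool.Agent.Helper27.SO
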