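import Pool.Agent.Helper27.SO.Extract

/-!
# SO: the positive frozen statement gives combinatorial data for every spread-out position set
-/

open scoped BigOperators
open Set

namespace Pool.Agent.Helper27.SO

/-- the positive statement (the body of the negation which is the frozen statement) -/
def Main : Prop :=
  ∀ (n d : ℕ), 1 ≤ n → 1 ≤ d →
  ∀ P : (Fin n → Finset (Fin d)) → Set (Fin d → ℝ),
  P = (fun B => convexHull ℝ {x : Fin d → ℝ | ∃ f : Fin n → Fin d, (∀ i, f i ∈ B i) ∧
        ∀ k, x k = ((Finset.univ.filter (fun i => f i = k)).card : ℝ)}) →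
  ∀ U : Finset (Fin d → ℕ), U.card = n → (∀ v ∈ U, ∑ k, v k = n - 1) →
  (∀ W ⊆ U, W.Nonempty → ∀ m : Fin d → ℕ, (∀ w ∈ W, ∀ k, m k ≤ w k) →
      ∑ k, m k ≤ n - W.card) →
  ∃ S : Finset (Fin n → Finset (Fin d)),
    (∀ B ∈ S, (∀ i, (B i).Nonempty) ∧ ∑ i, ((B i).card - 1) = d - 1 ∧
        Module.finrank ℝ (vectorSpan ℝ (P B)) = d - 1) ∧
    (∀ x : Fin d → ℝ, (∀ k, 0 ≤ x k) → ∑ k, x k = (n : ℝ) → ∃ B ∈ S, x ∈ P B) ∧
    (∀ B ∈ S, ∀ C ∈ S, P B ∩ P C = ∅ ∨
        ∃ l m : Fin d → ℝ, ∀ F : Fin n → Finset (Fin d),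
          F = (fun i => (B i).filter (fun k => ∀ k' ∈ B i, l k ≤ l k')) →
          (F = (fun i => (C i).filter (fun k => ∀ k' ∈ C i, m k ≤ m k')) ∧
            P B ∩ P C = P F)) ∧
    (∀ v : Fin d → ℕ, v ∈ U ↔ ∃ B ∈ S, ∃ i, B i = Finset.univ ∧
        ∀ k, v k = (Finset.univ.filter (fun j => j ≠ i ∧ k ∈ B j)).card)

/-- the positive statement gives the combinatorial data for every spread-out family `u` -/
theorem data_of_main (H : Main) {n d : ℕ} (hn : 1 ≤ n) (hd : 1 ≤ d) (u : Fin n → Fin d → ℕ)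
    (hu : Function.Injective u) (hsum : ∀ i, ∑ k, u i k = n - 1)
    (hspread : ∀ W : Finset (Fin n), W.Nonempty → ∀ m : Fin d → ℕ,
      (∀ i ∈ W, ∀ k, m k ≤ u i k) → ∑ k, m k ≤ n - W.card) :
    ∃ (T : (Fin n → Fin d) → Prop) (g : Fin n → Fin n → Fin d), Data n d u T g := by
  classical
  obtain ⟨S, h1, h2, h3, h4⟩ := H n d hn hd _ rfl (Finset.univ.image u)
    (by rw [Finset.card_image_of_injective _ hu, Finset.card_univ, Fintype.card_fin])
    (by
      intro v hv
      obtain ⟨i, -, rfl⟩ := Finset.mem_image.1 hv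
      exact hsum i)
    (by
      intro W hW hne m hm
      have e : (Finset.univ.filter (fun i => u i ∈ W)).image u = W := by
        ext w
        simp only [Finset.mem_image, Finset.mem_filter, Finset.mem_univ, true_and]
        constructor
        · rintro ⟨i, hi, rfl⟩
          exact hi
        · intro hw
          obtain ⟨i, -, rfl⟩ := Finset.mem_image.1 (hW hw)
          exact ⟨i, hw, rfl⟩
      have hc : (Finset.univ.filter (fun i => u i ∈ W)).card = W.card := by
        rw [← Finset.card_image_of_injective (Finset.univ.filter (fun i => u i ∈ W)) hu, e]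
      rw [← hc]
      refine hspread _ ?_ m fun i hi k => hm _ (Finset.mem_filter.1 hi).2 k
      rw [← Finset.card_pos, hc]
      exact hne.card_pos)
  refine extract hd u hu S h1 h2 h3 fun v hv => ?_
  obtain ⟨i, rfl⟩ := hv
  exact (h4 (u i)).1 (Finset.mem_image_of_mem _ (Finset.mem_univ _))

end Pool.Agent.Helper27.SO
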