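import Pool.Agent.Helper27.SO.Rel

/-!
# SO: the reduction to insertions (helper10's construction)

For a spread-out family `v` (n labels, d colours) and lattice points `m 0, .., m (r-1)` of
coordinate sum `n` the positive statement gives ONE system of partial sections on `n + r` labels
and `d` colours in which the base labels have the holes `v k` and every extra label has the hole
`m i` with respect to the base labels.
-/

open scoped BigOperators
open Set

namespace Pool.Agent.Helper27.SO

namespace PT

variable {ι κ ι' κ' : Type*} [DecidableEq ι] [DecidableEq κ] [Fintype κ]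
variable [DecidableEq ι'] [DecidableEq κ'] [Fintype κ']
variable {P : Finset ι → (ι → κ) → Prop}

/-- restriction to a set of labels and a set of colours -/
def comap (P : Finset ι → (ι → κ) → Prop) (e : ι' ↪ ι) (q : κ' ↪ κ) :
    Finset ι' → (ι' → κ') → Prop :=
  fun I f => ∃ F, P (I.map e) F ∧ ∀ i ∈ I, F (e i) = q (f i)

omit [DecidableEq ι] [Fintype κ] [DecidableEq ι'] [DecidableEq κ'] [Fintype κ'] in
theorem card_comap (e : ι' ↪ ι) (q : κ' ↪ κ) (I : Finset ι') (F : ι → κ) (f : ι' → κ')
    (h : ∀ i ∈ I, F (e i) = q (f i)) (c : κ) :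
    ((I.map e).filter (fun i => F i = c)).card = (I.filter (fun i => q (f i) = c)).card := by
  rw [Finset.filter_map, Finset.card_map]
  congr 1
  refine Finset.filter_congr fun a ha => ?_
  simp only [Function.comp_apply]
  rw [h a ha]

theorem comap_PT [Nonempty κ'] (hP : PT P) (e : ι' ↪ ι) (q : κ' ↪ κ) : PT (comap P e q) where
  ex I m hm := by
    classical
    obtain ⟨F, hF, hFm⟩ := hP.ex (I.map e) (fun c => ∑ c', if q c' = c then m c' else 0) (by
      rw [Finset.sum_comm]
      simp [hm])
    have hex : ∀ i, ∃ c', i ∈ I → F (e i) = q c' := by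
      intro i
      by_cases hi : i ∈ I
      · by_contra hcon
        push Not at hcon
        have h1 := hFm (F (e i))
        rw [Finset.sum_eq_zero fun c' _ => if_neg fun h => (hcon c').2 h.symm,
          Finset.card_eq_zero] at h1
        have : e i ∈ (I.map e).filter (fun j => F j = F (e i)) :=
          Finset.mem_filter.2 ⟨Finset.mem_map_of_mem _ hi, rfl⟩
        rw [h1] at this
        simp at this
      · exact ⟨Classical.arbitrary _, fun h => absurd h hi⟩
    choose f hf using hex
    refine ⟨f, ⟨F, hF, fun i hi => hf i hi⟩, fun c => ?_⟩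
    have h1 := hFm (q c)
    rw [card_comap e q I F f (fun i hi => hf i hi)] at h1
    have h2 : (∑ c', if q c' = q c then m c' else 0) = m c := by
      rw [Finset.sum_eq_single c]
      · simp
      · intro b _ hb
        rw [if_neg fun h => hb (q.injective h)]
      · simp
    rw [h2] at h1
    rw [← h1]
    congr 1
    refine Finset.filter_congr fun a _ => ?_
    exact (q.injective.eq_iff).symm
  compat := by
    rintro I f f' ⟨F, hF, hFf⟩ ⟨F', hF', hFf'⟩ hI i hi
    have h1 := hP.compat _ F F' hF hF' (fun c => by
      rw [card_comap e q I F f hFf, card_comap e q I F' f' hFf']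
      by_cases hc : ∃ c', q c' = c
      · obtain ⟨c', rfl⟩ := hc
        simp only [q.injective.eq_iff]
        exact hI c'
      · rw [Finset.filter_eq_empty_iff.2 fun a _ h => hc ⟨_, h⟩,
          Finset.filter_eq_empty_iff.2 fun a _ h => hc ⟨_, h⟩]) (e i)
      (Finset.mem_map_of_mem _ hi)
    rw [hFf i hi, hFf' i hi] at h1
    exact q.injective h1
  mono := by
    rintro I J f ⟨F, hF, hFf⟩ hJ
    exact ⟨F, hP.mono _ _ _ hF (Finset.map_subset_map.2 hJ), fun i hi => hFf i (hJ hi)⟩
  congr := by
    rintro I f f' ⟨F, hF, hFf⟩ hff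
    exact ⟨F, hF, fun i hi => by rw [hFf i hi, hff i hi]⟩
  exr := by
    classical
    intro I lam x hl hx hs
    obtain ⟨y, h1, h2, h3, h4⟩ := hP.exr (I.map e)
      (fun i => ∑ j ∈ I, if e j = i then lam j else 0)
      (fun c => ∑ c', if q c' = c then x c' else 0) (by
        intro i hi
        obtain ⟨j, hj, rfl⟩ := Finset.mem_map.1 hi
        rw [Finset.sum_eq_single_of_mem j hj]
        · simpa using hl j hj
        · intro b _ hb
          rw [if_neg fun h => hb (e.injective h)]) (by
        intro c
        refine Finset.sum_nonneg fun c' _ => ?_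
        split_ifs
        · exact hx _
        · exact le_rfl) (by
        rw [Finset.sum_comm, Finset.sum_map]
        have e1 : ∀ j ∈ I, (∑ j' ∈ I, if e j' = e j then lam j' else 0) = lam j := by
          intro j hj
          rw [Finset.sum_eq_single_of_mem j hj]
          · simp
          · intro b _ hb
            rw [if_neg fun h => hb (e.injective h)]
        rw [Finset.sum_congr rfl e1, ← hs]
        simp)
    have e1 : ∀ j ∈ I, (∑ j' ∈ I, if e j' = e j then lam j' else 0) = lam j := by
      intro j hj
      rw [Finset.sum_eq_single_of_mem j hj]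
      · simp
      · intro b _ hb
        rw [if_neg fun h => hb (e.injective h)]
    have h5 : ∀ c, ∑ i ∈ I, lam i * y (e i) c = ∑ c', if q c' = c then x c' else 0 := by
      intro c
      rw [← h3 c, Finset.sum_map]
      exact Finset.sum_congr rfl fun i hi => by rw [e1 i hi]
    have hmem : ∀ i ∈ I, e i ∈ I.map e := fun i hi => Finset.mem_map_of_mem _ hi
    have h6 : ∀ i ∈ I, ∀ c, (∀ c', q c' ≠ c) → y (e i) c = 0 := by
      intro i hi c hc
      have h7 := h5 c
      rw [Finset.sum_eq_zero (s := Finset.univ) fun c' _ => if_neg (hc c')] at h7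
      have h8 := (Finset.sum_eq_zero_iff_of_nonneg (fun j hj =>
        mul_nonneg (hl j hj).le (h1 (e j) (hmem j hj) c))).1 h7 i hi
      rcases mul_eq_zero.1 h8 with h9 | h9
      · exact absurd h9 (hl i hi).ne'
      · exact h9
    refine ⟨fun i c => y (e i) (q c), fun i hi c => h1 _ (hmem i hi) _, fun i hi => ?_, fun c => ?_,
      fun f hf => ?_⟩
    · rw [← h2 (e i) (hmem i hi), ← Finset.sum_image (f := y (e i)) (fun a _ b _ h => q.injective h)]
      refine Finset.sum_subset (Finset.subset_univ _) fun c _ hc => h6 i hi c fun c' h => hc ?_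
      rw [← h]
      exact Finset.mem_image_of_mem _ (Finset.mem_univ _)
    · rw [h5 (q c), Finset.sum_eq_single c]
      · simp
      · intro b _ hb
        rw [if_neg fun h => hb (q.injective h)]
      · simp
    · obtain ⟨F, hF⟩ : ∃ F : ι → κ, ∀ i, F (e i) = q (f i) := by
        rcases isEmpty_or_nonempty ι' with he | ⟨⟨i0⟩⟩
        · exact ⟨fun _ => q (Classical.arbitrary κ'), fun i => he.elim i⟩
        · refine ⟨fun j => if h : ∃ i, e i = j then q (f h.choose) else q (f i0), fun i => ?_⟩
          have h : ∃ i', e i' = e i := ⟨i, rfl⟩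
          show (if h : ∃ i', e i' = e i then q (f h.choose) else q (f i0)) = q (f i)
          rw [dif_pos h]
          exact congrArg (fun a => q (f a)) (e.injective h.choose_spec)
      refine ⟨F, h4 F fun j hj => ?_, fun i _ => hF i⟩
      obtain ⟨i, hi, rfl⟩ := Finset.mem_map.1 hj
      rw [hF]
      exact hf i hi

end PT

/-- the spread-out condition for families -/
def Spread {n d : ℕ} (u : Fin n → Fin d → ℕ) : Prop :=
  ∀ W : Finset (Fin n), W.Nonempty → ∀ m : Fin d → ℕ,
    (∀ i ∈ W, ∀ k, m k ≤ u i k) → ∑ k, m k ≤ n - W.card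

theorem Spread.injective {n d : ℕ} {u : Fin n → Fin d → ℕ} (h : Spread u)
    (hs : ∀ i, ∑ k, u i k = n - 1) : Function.Injective u := by
  intro i j hij
  by_contra hne
  have h1 := h {i, j} ⟨i, by simp⟩ (u i) (by
    intro l hl k
    simp only [Finset.mem_insert, Finset.mem_singleton] at hl
    rcases hl with rfl | rfl
    · exact le_rfl
    · rw [hij])
  rw [hs i, Finset.card_pair hne] at h1
  have h2 : ({i, j} : Finset (Fin n)).card ≤ Fintype.card (Fin n) := Finset.card_le_univ _
  rw [Finset.card_pair hne, Fintype.card_fin] at h2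
  omega

/-- the position set with `r` extra labels and `r` extra colours -/
def up {n d r : ℕ} (v : Fin n → Fin d → ℕ) (m : Fin r → Fin d → ℕ) :
    Fin (n + r) → Fin (d + r) → ℕ :=
  Fin.addCases (fun k => Fin.addCases (v k) (fun _ => 1))
    (fun i => Fin.addCases (m i) (fun j => if j = i then 0 else 1))

variable {n d r : ℕ} {v : Fin n → Fin d → ℕ} {m : Fin r → Fin d → ℕ}

theorem up_ll (k : Fin n) (c : Fin d) : up v m (Fin.castAdd r k) (Fin.castAdd r c) = v k c := by
  simp [up]

theorem up_lr (k : Fin n) (j : Fin r) : up v m (Fin.castAdd r k) (Fin.natAdd d j) = 1 := by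
  simp [up]

theorem up_rl (i : Fin r) (c : Fin d) : up v m (Fin.natAdd n i) (Fin.castAdd r c) = m i c := by
  simp [up]

theorem up_rr (i j : Fin r) :
    up v m (Fin.natAdd n i) (Fin.natAdd d j) = if j = i then 0 else 1 := by
  simp [up]

theorem up_le (x : Fin (n + r)) (j : Fin r) : up v m x (Fin.natAdd d j) ≤ 1 := by
  refine Fin.addCases (fun k => ?_) (fun i => ?_) x
  · rw [up_lr]
  · rw [up_rr]
    split_ifs <;> omega

theorem sum_up (hn : 1 ≤ n) (hv : ∀ k, ∑ c, v k c = n - 1) (hm : ∀ i, ∑ c, m i c = n)
    (x : Fin (n + r)) : ∑ c, up v m x c = n + r - 1 := by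
  refine Fin.addCases (fun k => ?_) (fun i => ?_) x
  · rw [Fin.sum_univ_add]
    simp only [up_ll, up_lr]
    rw [hv k]
    simp
    omega
  · rw [Fin.sum_univ_add]
    simp only [up_rl, up_rr]
    rw [hm i, Finset.sum_ite, Finset.sum_const_zero, zero_add, Finset.sum_const, smul_eq_mul,
      mul_one]
    have h1 : (Finset.univ.filter (fun j : Fin r => ¬ j = i)).card = r - 1 := by
      rw [Finset.filter_not, Finset.filter_eq' Finset.univ i, if_pos (Finset.mem_univ _),
        Finset.card_sdiff_of_subset (Finset.subset_univ _), Finset.card_singleton,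
        Finset.card_univ, Fintype.card_fin]
    rw [h1]
    have := i.2
    omega

theorem spread_up (hv : Spread v) (hm : ∀ i, ∑ c, m i c = n) : Spread (up v m) := by
  classical
  intro W hW p hp
  set K : Finset (Fin n) := Finset.univ.filter (fun k => Fin.castAdd r k ∈ W) with hK
  set L : Finset (Fin r) := Finset.univ.filter (fun i => Fin.natAdd n i ∈ W) with hL
  have hcard : W.card = K.card + L.card := by
    have e1 : W = K.map (Fin.castAddEmb r) ∪ L.map (Fin.natAddEmb n) := by
      ext x
      refine Fin.addCases (fun k => ?_) (fun i => ?_) x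
      · simp only [hK, hL, Finset.mem_union, Finset.mem_map, Finset.mem_filter, Finset.mem_univ,
          true_and]
        constructor
        · exact fun h => Or.inl ⟨k, h, rfl⟩
        · rintro (⟨a, ha, h⟩ | ⟨a, ha, h⟩)
          · rw [← h]
            exact ha
          · have := congrArg Fin.val h
            simp only [Fin.natAddEmb_apply, Fin.val_natAdd, Fin.val_castAdd] at this
            have := k.2
            omega
      · simp only [hK, hL, Finset.mem_union, Finset.mem_map, Finset.mem_filter, Finset.mem_univ,
          true_and]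
        constructor
        · exact fun h => Or.inr ⟨i, h, rfl⟩
        · rintro (⟨a, ha, h⟩ | ⟨a, ha, h⟩)
          · have := congrArg Fin.val h
            simp only [Fin.castAddEmb_apply, Fin.val_natAdd, Fin.val_castAdd] at this
            have := a.2
            omega
          · rw [← h]
            exact ha
    have e2 : Disjoint (K.map (Fin.castAddEmb r)) (L.map (Fin.natAddEmb n)) := by
      rw [Finset.disjoint_left]
      intro x hx hx'
      obtain ⟨k, -, rfl⟩ := Finset.mem_map.1 hx
      obtain ⟨i, -, h⟩ := Finset.mem_map.1 hx'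
      have := congrArg Fin.val h
      simp at this
      have := k.2
      omega
    rw [e1, Finset.card_union_of_disjoint e2, Finset.card_map, Finset.card_map]
  have hr : ∑ j : Fin r, p (Fin.natAdd d j) ≤ r - L.card := by
    have h1 : ∀ j : Fin r, p (Fin.natAdd d j) ≤ if j ∈ L then 0 else 1 := by
      intro j
      split_ifs with hj
      · have := hp _ (Finset.mem_filter.1 hj).2 (Fin.natAdd d j)
        rw [up_rr, if_pos rfl] at this
        exact this
      · obtain ⟨x, hx⟩ := hW
        exact (hp x hx _).trans (up_le x j)
    refine (Finset.sum_le_sum fun j _ => h1 j).trans ?_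
    rw [Finset.sum_ite, Finset.sum_const_zero, zero_add, Finset.sum_const, smul_eq_mul, mul_one,
      Finset.filter_not, Finset.filter_mem_eq_inter, Finset.univ_inter,
      Finset.card_sdiff_of_subset (Finset.subset_univ _), Finset.card_univ, Fintype.card_fin]
  have hLr : L.card ≤ r := by
    simpa using Finset.card_le_univ L
  have hKn : K.card ≤ n := by
    simpa using Finset.card_le_univ K
  rw [Fin.sum_univ_add, hcard]
  rcases K.eq_empty_or_nonempty with hKe | hKne
  · have hLne : L.Nonempty := by
      rw [← Finset.card_pos]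
      have := hW.card_pos
      rw [hcard, hKe, Finset.card_empty] at this
      omega
    obtain ⟨i, hi⟩ := hLne
    have h1 : ∑ c, p (Fin.castAdd r c) ≤ n := by
      rw [← hm i]
      refine Finset.sum_le_sum fun c _ => ?_
      have := hp _ (Finset.mem_filter.1 hi).2 (Fin.castAdd r c)
      rwa [up_rl] at this
    rw [hKe, Finset.card_empty]
    omega
  · have h1 := hv K hKne (fun c => p (Fin.castAdd r c)) (by
      intro k hk c
      have := hp _ (Finset.mem_filter.1 hk).2 (Fin.castAdd r c)
      rwa [up_ll] at this)
    omega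

end Pool.Agent.Helper27.SO
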