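import Pool.Agent.Helper27.SO.Red

/-!
# SO: the reduction theorem
-/

open scoped BigOperators
open Set

namespace Pool.Agent.Helper27.SO

variable {n d r : ℕ} {v : Fin n → Fin d → ℕ} {m : Fin r → Fin d → ℕ}

/-- **The reduction theorem.**  For a spread-out family `v` of `n` points and arbitrary lattice
points `m i` with coordinate sum `n`, the positive frozen statement gives one system `P` of partial
sections on the labels `Fin (n + r)` and the colours `Fin d` and colours `G x j` such that
* for all labels `x` (base or extra) and all sets `I` of labels whose members other than `x` are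
  base labels, `P I` holds for the function `G x` changed at `x` to any colour, and
* the content of `G x` on the base labels other than `x` is `v x` for base labels and `m x` for
  extra labels. -/
theorem reduction (H : Main) (hn : 1 ≤ n) (hd : 1 ≤ d) (hv : Spread v)
    (hvs : ∀ k, ∑ c, v k c = n - 1) (hms : ∀ i, ∑ c, m i c = n) :
    ∃ (P : Finset (Fin (n + r)) → (Fin (n + r) → Fin d) → Prop)
      (G : Fin (n + r) → Fin (n + r) → Fin d), PT P ∧
      (∀ (x : Fin (n + r)) (c : Fin d) (I : Finset (Fin (n + r))),
        (∀ j ∈ I, j ≠ x → j.1 < n) → P I (Function.update (G x) x c)) ∧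
      (∀ k c, v k c = (Finset.univ.filter (fun j : Fin n =>
        j ≠ k ∧ G (Fin.castAdd r k) (Fin.castAdd r j) = c)).card) ∧
      (∀ i c, m i c = (Finset.univ.filter (fun j : Fin n =>
        G (Fin.natAdd n i) (Fin.castAdd r j) = c)).card) := by
  classical
  obtain ⟨T, g, hD⟩ := data_of_main H (n := n + r) (d := d + r) (by omega) (by omega) (up v m)
    ((spread_up hv hms).injective (sum_up hn hvs hms)) (sum_up hn hvs hms)
    (spread_up hv hms)
  have hP := hD.toPT
  have hS : PT.Sees (fun (I : Finset (Fin (n + r))) (f : Fin (n + r) → Fin (d + r)) =>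
      ∃ F, T F ∧ ∀ i ∈ I, F i = f i) g := fun i c I => hD.hole' i c I
  -- the extra labels are seen in their own colours
  have hl : ∀ (i : Fin r) (x : Fin (n + r)), x ≠ Fin.natAdd n i →
      g x (Fin.natAdd n i) = Fin.natAdd d i := by
    intro i x hx
    have hi := i.2
    have : Nontrivial (Fin (d + r)) := by
      rw [← Fintype.one_lt_card_iff_nontrivial, Fintype.card_fin]
      omega
    refine hS.single hP Finset.univ (Fin.natAdd n i) (Fin.natAdd d i) ?_ x (Finset.mem_univ _) hx
    intro k _ hk
    have h1 : up v m k (Fin.natAdd d i) = 1 := by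
      revert hk
      refine Fin.addCases (fun k => ?_) (fun i' => ?_) k
      · intro _
        exact up_lr k i
      · intro hk
        rw [up_rr, if_neg]
        rintro rfl
        exact hk rfl
    rw [hD.pos] at h1
    have h2 : (Finset.univ.filter (fun j => j ≠ k ∧ g k j = Fin.natAdd d i)).Nonempty := by
      rw [← Finset.card_pos, h1]
      exact one_pos
    obtain ⟨j, hj⟩ := h2
    obtain ⟨-, hj1, hj2⟩ := Finset.mem_filter.1 hj
    exact ⟨j, Finset.mem_univ _, hj1, hj2⟩
  -- the base labels are seen in base colours
  have hb : ∀ (x : Fin (n + r)) (j : Fin n), Fin.castAdd r j ≠ x →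
      ∃ c : Fin d, g x (Fin.castAdd r j) = Fin.castAdd r c := by
    intro x j hj
    by_contra hcon
    push Not at hcon
    have h1 : ∃ i : Fin r, g x (Fin.castAdd r j) = Fin.natAdd d i := by
      revert hcon
      refine Fin.addCases (motive := fun c => (∀ c' : Fin d, c ≠ Fin.castAdd r c') →
        ∃ i : Fin r, c = Fin.natAdd d i) (fun c h => absurd rfl (h c)) (fun i _ => ⟨i, rfl⟩) _
    obtain ⟨i, hi⟩ := h1
    have h2 := hD.pos x (Fin.natAdd d i)
    by_cases hx : x = Fin.natAdd n i
    · rw [hx, up_rr, if_pos rfl] at h2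
      have h3 : Fin.castAdd r j ∈ Finset.univ.filter
          (fun j => j ≠ Fin.natAdd n i ∧ g (Fin.natAdd n i) j = Fin.natAdd d i) :=
        Finset.mem_filter.2 ⟨Finset.mem_univ _, by rwa [← hx], by rwa [← hx]⟩
      rw [eq_comm, Finset.card_eq_zero] at h2
      rw [h2] at h3
      simp at h3
    · have h3 : ({Fin.castAdd r j, Fin.natAdd n i} : Finset (Fin (n + r))) ⊆
          Finset.univ.filter (fun j => j ≠ x ∧ g x j = Fin.natAdd d i) := by
        intro y hy
        simp only [Finset.mem_insert, Finset.mem_singleton] at hy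
        rcases hy with rfl | rfl
        · exact Finset.mem_filter.2 ⟨Finset.mem_univ _, hj, hi⟩
        · exact Finset.mem_filter.2 ⟨Finset.mem_univ _, fun h => hx h.symm, hl i x hx⟩
      have h4 := Finset.card_le_card h3
      rw [← h2, Finset.card_pair (by
        intro h
        have := congrArg Fin.val h
        simp at this
        have := j.2
        omega)] at h4
      have := up_le (v := v) (m := m) x i
      omega
  have c0 : Fin d := ⟨0, hd⟩
  have : Nonempty (Fin d) := ⟨c0⟩
  have hG : ∀ (x y : Fin (n + r)), ∃ c : Fin d, (y.1 < n → y ≠ x → g x y = Fin.castAdd r c) := by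
    intro x y
    by_cases hy : y.1 < n
    · by_cases hyx : y = x
      · exact ⟨c0, fun _ h => absurd hyx h⟩
      · obtain ⟨c, hc⟩ := hb x ⟨y.1, hy⟩ (by
          intro h
          exact hyx (by rw [← h]; rfl))
        exact ⟨c, fun _ _ => hc⟩
    · exact ⟨c0, fun h => absurd h hy⟩
  choose G hG using hG
  have hcount : ∀ (x : Fin (n + r)) (c : Fin d), up v m x (Fin.castAdd r c) =
      (Finset.univ.filter (fun j : Fin n => Fin.castAdd r j ≠ x ∧
        G x (Fin.castAdd r j) = c)).card := by
    intro x c
    rw [hD.pos x (Fin.castAdd r c)]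
    refine Eq.trans (congrArg Finset.card ?_) (Finset.card_map (Fin.castAddEmb r))
    ext y
    refine Fin.addCases (fun j => ?_) (fun i => ?_) y
    · simp only [Finset.mem_filter, Finset.mem_univ, true_and, Finset.mem_map]
      constructor
      · rintro ⟨h1, h2⟩
        refine ⟨j, ⟨h1, ?_⟩, rfl⟩
        rw [hG x _ (by simp) h1] at h2
        exact Fin.castAdd_injective d r h2
      · rintro ⟨j', ⟨h1, h2⟩, h3⟩
        have h4 : j' = j := Fin.castAdd_injective n r h3
        subst h4
        exact ⟨h1, by rw [hG x _ (by simp) h1, h2]⟩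
    · simp only [Finset.mem_filter, Finset.mem_univ, true_and, Finset.mem_map]
      constructor
      · rintro ⟨h1, h2⟩
        rw [hl i x h1.symm] at h2
        have := congrArg Fin.val h2
        simp at this
        have := c.2
        omega
      · rintro ⟨j', -, h3⟩
        have := congrArg Fin.val h3
        simp at this
        have := j'.2
        omega
  refine ⟨PT.comap (fun (I : Finset (Fin (n + r))) (f : Fin (n + r) → Fin (d + r)) =>
      ∃ F, T F ∧ ∀ i ∈ I, F i = f i) (Function.Embedding.refl _) (Fin.castAddEmb r), G,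
    PT.comap_PT hP _ _, ?_, ?_, ?_⟩
  · intro x c I hI
    refine ⟨Function.update (g x) x (Fin.castAdd r c), ?_, ?_⟩
    · exact hS x (Fin.castAdd r c) _
    · intro j hj
      show Function.update (g x) x (Fin.castAdd r c) j =
        Fin.castAdd r (Function.update (G x) x c j)
      by_cases hjx : j = x
      · subst hjx
        rw [Function.update_self, Function.update_self]
      · rw [Function.update_of_ne hjx, Function.update_of_ne hjx]
        exact hG x j (hI j hj hjx) hjx
  · intro k c
    have h1 := hcount (Fin.castAdd r k) c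
    rw [up_ll] at h1
    rw [h1]
    congr 1
    refine Finset.filter_congr fun j _ => ?_
    constructor
    · rintro ⟨h2, h3⟩
      exact ⟨fun h => h2 (by rw [h]), h3⟩
    · rintro ⟨h2, h3⟩
      exact ⟨fun h => h2 (Fin.castAdd_injective n r h), h3⟩
  · intro i c
    have h1 := hcount (Fin.natAdd n i) c
    rw [up_rl] at h1
    rw [h1]
    congr 1
    refine Finset.filter_congr fun j _ => ?_
    constructor
    · rintro ⟨-, h3⟩
      exact h3
    · intro h3
      refine ⟨fun h => ?_, h3⟩
      have := congrArg Fin.val h
      simp at this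
      have := j.2
      omega

/-- the version with pair relations -/
theorem reduction_rel (H : Main) (hn : 1 ≤ n) (hd : 1 ≤ d) (hv : Spread v)
    (hvs : ∀ k, ∑ c, v k c = n - 1) (hms : ∀ i, ∑ c, m i c = n) :
    ∃ (R : Fin (n + r) → Fin (n + r) → Fin d → Fin d → Prop)
      (G : Fin (n + r) → Fin (n + r) → Fin d),
      (∀ x y a b, R x y a b → R y x b a) ∧
      (∀ x y a b, x ≠ y → R x y a b ∨ R x y b a) ∧
      (∀ x y a b, x ≠ y → a ≠ b → R x y a b → R x y b a → False) ∧
      (∀ x y z a b, x ≠ y → y ≠ z → x ≠ z → a ≠ b → R x y a b → R y z a b → R x z a b) ∧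
      (∀ x y a b c, x ≠ y → a ≠ b → b ≠ c → a ≠ c → R x y a b → R x y b c → R x y a c) ∧
      (∀ x y c, x ≠ y → y.1 < n → R x y c (G x y)) ∧
      (∀ k c, v k c = (Finset.univ.filter (fun j : Fin n =>
        j ≠ k ∧ G (Fin.castAdd r k) (Fin.castAdd r j) = c)).card) ∧
      (∀ i c, m i c = (Finset.univ.filter (fun j : Fin n =>
        G (Fin.natAdd n i) (Fin.castAdd r j) = c)).card) := by
  obtain ⟨P, G, hP, h1, h2, h3⟩ := reduction (r := r) (m := m) H hn hd hv hvs hms
  refine ⟨PT.R P, G, fun x y a b h => h.symm, fun x y a b hxy => PT.R.tot hP hxy a b,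
    fun x y a b hxy hab h h' => PT.R.anti hP hxy hab h h',
    fun x y z a b hxy hyz hxz hab h h' => PT.R.transL hP hxy hyz hxz hab h h',
    fun x y a b c hxy hab hbc hac h h' => PT.R.transC hP hxy hab hbc hac h h',
    fun x y c hxy hy => ?_, h2, h3⟩
  exact ⟨_, h1 x c {x, y} (by
    intro j hj hjx
    simp only [Finset.mem_insert, Finset.mem_singleton] at hj
    rcases hj with rfl | rfl
    · exact absurd rfl hjx
    · exact hy), Function.update_self .., Function.update_of_ne hxy.symm ..⟩

end Pool.Agent.Helper27.SO
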