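import Pool.Agent.Helper27.SO.Main

/-!
# SO: partial sections, pair relations, the lemma on single labels, reductions
-/

open scoped BigOperators
open Set

namespace Pool.Agent.Helper27.SO

/-- Partial sections: `P I f` means that `f` restricted to the set `I` of labels is (part of) a
section. -/
structure PT {ι κ : Type*} [DecidableEq ι] [DecidableEq κ] [Fintype κ]
    (P : Finset ι → (ι → κ) → Prop) : Prop where
  ex : ∀ (I : Finset ι) (m : κ → ℕ), ∑ c, m c = I.card →
    ∃ f, P I f ∧ ∀ c, (I.filter (fun i => f i = c)).card = m c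
  compat : ∀ (I : Finset ι) f f', P I f → P I f' →
    (∀ c, (I.filter (fun i => f i = c)).card = (I.filter (fun i => f' i = c)).card) →
    ∀ i ∈ I, f i = f' i
  mono : ∀ (I J : Finset ι) f, P I f → J ⊆ I → P J f
  congr : ∀ (I : Finset ι) f f', P I f → (∀ i ∈ I, f i = f' i) → P I f'
  exr : ∀ (I : Finset ι) (lam : ι → ℝ) (x : κ → ℝ), (∀ i ∈ I, 0 < lam i) → (∀ c, 0 ≤ x c) →
    ∑ c, x c = ∑ i ∈ I, lam i → ∃ y : ι → κ → ℝ, (∀ i ∈ I, ∀ c, 0 ≤ y i c) ∧
      (∀ i ∈ I, ∑ c, y i c = 1) ∧ (∀ c, ∑ i ∈ I, lam i * y i c = x c) ∧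
      ∀ f, (∀ i ∈ I, y i (f i) ≠ 0) → P I f

section basic

variable {n d : ℕ}

theorem Data.toPT {u : Fin n → Fin d → ℕ} {T : (Fin n → Fin d) → Prop}
    {g : Fin n → Fin n → Fin d} (h : Data n d u T g) :
    PT (fun (I : Finset (Fin n)) (f : Fin n → Fin d) => ∃ F, T F ∧ ∀ i ∈ I, F i = f i) where
  ex I m hm := by
    obtain ⟨f, hf, hfm⟩ := h.ex I m hm
    exact ⟨f, ⟨f, hf, fun _ _ => rfl⟩, hfm⟩
  compat := by
    rintro I f f' ⟨F, hF, hFf⟩ ⟨F', hF', hFf'⟩ hI i hi
    rw [← hFf i hi, ← hFf' i hi]
    refine h.compat F F' hF hF' I (fun c => ?_) i hi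
    have e1 : (I.filter (fun i => F i = c)) = I.filter (fun i => f i = c) :=
      Finset.filter_congr fun a ha => by rw [hFf a ha]
    have e2 : (I.filter (fun i => F' i = c)) = I.filter (fun i => f' i = c) :=
      Finset.filter_congr fun a ha => by rw [hFf' a ha]
    rw [e1, e2, hI c]
  mono := by
    rintro I J f ⟨F, hF, hFf⟩ hJ
    exact ⟨F, hF, fun i hi => hFf i (hJ hi)⟩
  congr := by
    rintro I f f' ⟨F, hF, hFf⟩ hff
    exact ⟨F, hF, fun i hi => (hFf i hi).trans (hff i hi)⟩
  exr := by
    intro I lam x hl hx hs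
    -- scale to weights at most one
    set M : ℝ := 1 + ∑ i ∈ I, lam i with hM
    have hM0 : 0 < M := by
      have : 0 ≤ ∑ i ∈ I, lam i := Finset.sum_nonneg fun i hi => (hl i hi).le
      linarith
    obtain ⟨y, h1, h2, h3, h4⟩ := h.exr (fun i => if i ∈ I then lam i / M else 0)
      (fun c => x c / M) (fun i => by
        split_ifs with hi
        · exact div_nonneg (hl i hi).le hM0.le
        · exact le_rfl) (fun i => by
        split_ifs with hi
        · rw [div_le_one hM0]
          have := Finset.single_le_sum (f := lam) (fun i hi => (hl i hi).le) hi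
          linarith
        · exact zero_le_one) (fun c => div_nonneg (hx c) hM0.le) (by
        rw [← Finset.sum_div, hs, Finset.sum_div, Finset.sum_ite_mem, Finset.univ_inter])
    refine ⟨y, fun i _ => h1 i, fun i _ => h2 i, fun c => ?_, fun f hf => ?_⟩
    · have h5 := h3 c
      have h6 : ∑ i, (if i ∈ I then lam i / M else 0) * y i c =
          (∑ i ∈ I, lam i * y i c) / M := by
        rw [Finset.sum_div, ← Finset.sum_subset (Finset.subset_univ I)]
        · refine Finset.sum_congr rfl fun i hi => ?_
          rw [if_pos hi]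
          ring
        · intro i _ hi
          rw [if_neg hi, zero_mul]
      rw [h6, div_left_inj' hM0.ne'] at h5
      exact h5
    · have h5 : ∀ i, ∃ c, y i c ≠ 0 := by
        intro i
        by_contra hcon
        push Not at hcon
        have := h2 i
        rw [Finset.sum_eq_zero fun c _ => hcon c] at this
        exact zero_ne_one this
      choose b hb using h5
      refine ⟨fun i => if i ∈ I then f i else b i, h4 _ fun i => ?_, fun i hi => by simp [hi]⟩
      by_cases hi : i ∈ I
      · simp only [hi, if_true]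
        exact hf i hi
      · simp only [hi, if_false]
        exact hb i

theorem Data.hole' {u : Fin n → Fin d → ℕ} {T : (Fin n → Fin d) → Prop}
    {g : Fin n → Fin n → Fin d} (h : Data n d u T g) (i : Fin n) (c : Fin d)
    (I : Finset (Fin n)) :
    ∃ F, T F ∧ ∀ j ∈ I, F j = Function.update (g i) i c j := ⟨_, h.hole i c, fun _ _ => rfl⟩

end basic

namespace PT

variable {ι κ : Type*} [DecidableEq ι] [DecidableEq κ] [Fintype κ]
variable {P : Finset ι → (ι → κ) → Prop}

/-- the pair relation: label `j` gets `a` and label `k` gets `b` -/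
def R (P : Finset ι → (ι → κ) → Prop) (j k : ι) (a b : κ) : Prop :=
  ∃ f, P {j, k} f ∧ f j = a ∧ f k = b

omit [DecidableEq κ] [Fintype κ] in
theorem R.symm {j k : ι} {a b : κ} (h : R P j k a b) : R P k j b a := by
  obtain ⟨f, hf, h1, h2⟩ := h
  exact ⟨f, by rwa [Finset.pair_comm], h2, h1⟩

omit [Fintype κ] in
theorem card_pair_filter {j k : ι} (hjk : j ≠ k) (f : ι → κ) (c : κ) :
    (({j, k} : Finset ι).filter (fun i => f i = c)).card =
      (if f j = c then 1 else 0) + (if f k = c then 1 else 0) := by
  rw [Finset.filter_insert, Finset.filter_singleton]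
  split_ifs with h1 h2 h2
  · rw [Finset.card_pair hjk]
  · simp
  · simp
  · simp

theorem R.anti (hP : PT P) {j k : ι} {a b : κ} (hjk : j ≠ k) (hab : a ≠ b) (h : R P j k a b)
    (h' : R P j k b a) : False := by
  obtain ⟨f, hf, h1, h2⟩ := h
  obtain ⟨f', hf', h1', h2'⟩ := h'
  have := hP.compat _ f f' hf hf' (fun c => by
    rw [card_pair_filter hjk, card_pair_filter hjk, h1, h2, h1', h2', add_comm]) j (by simp)
  rw [h1, h1'] at this
  exact hab this

theorem R.tot (hP : PT P) {j k : ι} (hjk : j ≠ k) (a b : κ) : R P j k a b ∨ R P j k b a := by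
  obtain ⟨f, hf, hfm⟩ := hP.ex {j, k} (fun c => (if a = c then 1 else 0) + (if b = c then 1 else 0))
    (by
      rw [Finset.sum_add_distrib, Finset.card_pair hjk]
      simp)
  simp only [card_pair_filter hjk] at hfm
  have h1 := hfm (f j)
  have h2 := hfm (f k)
  have h3 := hfm a
  have h4 := hfm b
  by_cases ha : f j = a
  · left
    refine ⟨f, hf, ha, ?_⟩
    by_contra hne
    subst ha
    rw [if_neg hne] at h4
    by_cases hab : f j = b
    · simp [hab] at h4
    · simp [hab] at h4
  · by_cases hb : f j = b
    · right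
      refine ⟨f, hf, hb, ?_⟩
      by_contra hne
      rw [if_neg ha, if_neg hne, if_pos rfl] at h3
      omega
    · exfalso
      rw [if_pos rfl, if_neg (show ¬ a = f j from fun h => ha h.symm),
        if_neg (show ¬ b = f j from fun h => hb h.symm)] at h1
      omega

/-- transitivity in the labels -/
theorem R.transL (hP : PT P) {i j k : ι} {a b : κ} (hij : i ≠ j) (hjk : j ≠ k) (hik : i ≠ k)
    (hab : a ≠ b) (h : R P i j a b) (h' : R P j k a b) : R P i k a b := by
  obtain ⟨f, hf, hfm⟩ := hP.ex {i, j, k} (fun c => (if a = c then 2 else 0) +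
    (if b = c then 1 else 0)) (by
      rw [Finset.sum_add_distrib, Finset.card_eq_three.2 ⟨i, j, k, hij, hik, hjk, rfl⟩]
      simp)
  have hc : ∀ c, (({i, j, k} : Finset ι).filter (fun l => f l = c)).card =
      (if f i = c then 1 else 0) + ((if f j = c then 1 else 0) + (if f k = c then 1 else 0)) := by
    intro c
    have hi : i ∉ ({j, k} : Finset ι).filter (fun l => f l = c) := by
      simp [hij, hik]
    rw [Finset.filter_insert]
    split_ifs with h1 h2 h3 h3 h2 h3 h3 <;>
      simp [Finset.filter_insert, Finset.filter_singleton, *]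
  simp only [hc] at hfm
  have ha := hfm a
  have hb := hfm b
  simp only [if_true, hab, hab.symm, if_false, zero_add, add_zero] at ha hb
  by_cases h1 : f k = b
  · -- then `i` and `j` have the colour `a`
    rw [h1] at ha hb
    simp only [if_true, hab.symm, if_false, add_zero] at ha hb
    have hia : f i = a := by
      by_contra hne
      rw [if_neg hne] at ha
      split_ifs at ha <;> omega
    exact ⟨f, hP.mono _ _ _ hf (by
      intro x hx
      simp only [Finset.mem_insert, Finset.mem_singleton] at hx ⊢
      tauto), hia, h1⟩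
  · exfalso
    have hka : f k = a := by
      by_contra hne
      rw [if_neg hne] at ha
      rw [if_neg h1] at hb
      split_ifs at ha hb with h2 h3 h3 h4 h4
      all_goals first | omega | skip
      all_goals simp_all
    by_cases h2 : f j = b
    · exact R.anti hP hjk hab h' ⟨f, hP.mono _ _ _ hf (by
        intro x hx
        simp only [Finset.mem_insert, Finset.mem_singleton] at hx ⊢
        tauto), h2, hka⟩
    · have hib : f i = b := by
        by_contra hne
        rw [if_neg hne, if_neg h2, if_neg h1] at hb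
        omega
      have hja : f j = a := by
        by_contra hne
        rw [if_neg hne] at ha
        rw [hib, hka, if_neg hab.symm] at ha
        simp at ha
      exact R.anti hP hij hab h ⟨f, hP.mono _ _ _ hf (by
        intro x hx
        simp only [Finset.mem_insert, Finset.mem_singleton] at hx ⊢
        tauto), hib, hja⟩

/-- transitivity in the colours -/
theorem R.transC (hP : PT P) {j k : ι} {a b c : κ} (hjk : j ≠ k) (hab : a ≠ b) (hbc : b ≠ c)
    (hac : a ≠ c) (h : R P j k a b) (h' : R P j k b c) : R P j k a c := by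
  rcases R.tot hP hjk a c with h3 | h3
  · exact h3
  exfalso
  obtain ⟨y, h1, h2, hy, hyP⟩ := hP.exr {j, k} (fun _ => 1)
    (fun e => if e = a ∨ e = b ∨ e = c then 2 / 3 else 0) (fun _ _ => one_pos)
    (fun e => by split_ifs <;> norm_num) (by
      rw [← Finset.sum_filter, Finset.sum_const, Finset.sum_const, Finset.card_pair hjk]
      have : (Finset.univ.filter (fun e => e = a ∨ e = b ∨ e = c)) = {a, b, c} := by
        ext e
        simp
      rw [this, Finset.card_eq_three.2 ⟨a, b, c, hab, hac, hbc, rfl⟩]
      norm_num)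
  have hj : j ∈ ({j, k} : Finset ι) := by simp
  have hk : k ∈ ({j, k} : Finset ι) := by simp
  have hsum : ∀ e, y j e + y k e = if e = a ∨ e = b ∨ e = c then 2 / 3 else 0 := by
    intro e
    have := hy e
    rw [Finset.sum_pair hjk] at this
    linarith
  have ea : y j a + y k a = 2 / 3 := by rw [hsum, if_pos (Or.inl rfl)]
  have eb : y j b + y k b = 2 / 3 := by rw [hsum, if_pos (Or.inr (Or.inl rfl))]
  have ec : y j c + y k c = 2 / 3 := by rw [hsum, if_pos (Or.inr (Or.inr rfl))]
  have hin : ({a, b, c} : Finset κ) ⊆ Finset.univ := Finset.subset_univ _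
  have hcard3 : ∀ i ∈ ({j, k} : Finset ι), y i a + (y i b + y i c) ≤ 1 := by
    intro i hi
    rw [← h2 i hi]
    calc y i a + (y i b + y i c) = ∑ e ∈ ({a, b, c} : Finset κ), y i e := by
          rw [Finset.sum_insert (by simp [hab, hac]), Finset.sum_pair hbc]
      _ ≤ _ := Finset.sum_le_sum_of_subset_of_nonneg hin fun e _ _ => h1 i hi e
  have hneg : ∀ x z : κ, x ≠ z → R P j k z x → y j x ≠ 0 → y k z = 0 := by
    intro x z hxz hR hx
    by_contra hz
    refine R.anti hP hjk hxz ⟨fun i => if i = j then x else z, hyP _ fun i hi => ?_, by simp,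
      by simp [hjk.symm]⟩ hR
    simp only [Finset.mem_insert, Finset.mem_singleton] at hi
    rcases hi with rfl | rfl
    · simpa using hx
    · simpa [hjk.symm] using hz
  -- relations: j a k b, j b k c, j c k a
  have n1 := hneg b a hab.symm h
  have n2 := hneg c b hbc.symm h'
  have n3 := hneg a c hac h3
  have pj := hcard3 j hj
  have pk := hcard3 k hk
  have q1 := h1 j hj a
  have q2 := h1 j hj b
  have q3 := h1 j hj c
  have q4 := h1 k hk a
  have q5 := h1 k hk b
  have q6 := h1 k hk c
  by_cases hb : y j b = 0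
  · by_cases hc : y j c = 0
    · linarith
    · have := n2 hc
      linarith
  · have e1 := n1 hb
    have : y j a ≠ 0 := by
      intro h0
      linarith
    have e2 := n3 this
    linarith

/-- `k` sees `j` in the colour `c` -/
def Sees (P : Finset ι → (ι → κ) → Prop) (g : ι → ι → κ) : Prop :=
  ∀ i c (I : Finset ι), P I (Function.update (g i) i c)

omit [DecidableEq κ] [Fintype κ] in
theorem Sees.rel {g : ι → ι → κ} (h : Sees P g) {i j : ι} (hij : i ≠ j) (c : κ) :
    R P i j c (g i j) :=
  ⟨_, h i c {i, j}, Function.update_self .., Function.update_of_ne hij.symm ..⟩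

/-- nobody is seen in a colour in a cycle -/
theorem Sees.asymm {g : ι → ι → κ} (hP : PT P) (h : Sees P g) {i j : ι} (hij : i ≠ j) {c e : κ}
    (hce : c ≠ e) (h1 : g i j = c) : g j i ≠ c := by
  intro h2
  have r1 := h.rel hij e
  have r2 := (h.rel hij.symm e).symm
  rw [h1] at r1
  rw [h2] at r2
  exact R.anti hP hij hce r2 r1

/-- the relation `i sees j in the colour c` is transitive -/
theorem Sees.trans {g : ι → ι → κ} (hP : PT P) (h : Sees P g) {i j k : ι} (hij : i ≠ j)
    (hjk : j ≠ k) (hik : i ≠ k) {c : κ} (h1 : g i j = c) (h2 : g j k = c) : g i k = c := by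
  by_contra hne
  have r1 := h.rel hij (g i k)
  have r2 := h.rel hjk (g i k)
  rw [h1] at r1
  rw [h2] at r2
  have r3 := R.transL hP hij hjk hik hne r1 r2
  have r4 := h.rel hik c
  exact R.anti hP hik hne r3 r4

/-- **Lemma on single labels.**  If every label of `X` except `l` sees somebody of `X` in the
colour `c`, then all of them see `l` in the colour `c`. -/
theorem Sees.single [Nontrivial κ] {g : ι → ι → κ} (hP : PT P) (h : Sees P g) (X : Finset ι)
    (l : ι) (c : κ) (hX : ∀ k ∈ X, k ≠ l → ∃ j ∈ X, j ≠ k ∧ g k j = c) :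
    ∀ k ∈ X, k ≠ l → g k l = c := by
  obtain ⟨e, he⟩ := exists_ne c
  have key : ∀ (N : ℕ) (k : ι), k ∈ X → k ≠ l →
      (X.filter (fun j => j ≠ k ∧ g k j = c)).card ≤ N → g k l = c := by
    intro N
    induction N with
    | zero =>
      intro k hk hkl hN
      obtain ⟨j, hj, hjk, hg⟩ := hX k hk hkl
      have : j ∈ X.filter (fun j => j ≠ k ∧ g k j = c) := Finset.mem_filter.2 ⟨hj, hjk, hg⟩
      rw [Nat.le_zero, Finset.card_eq_zero] at hN
      rw [hN] at this
      simp at this
    | succ N ih =>
      intro k hk hkl hN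
      obtain ⟨j, hj, hjk, hg⟩ := hX k hk hkl
      by_cases hjl : j = l
      · rw [← hjl]
        exact hg
      have hsub : X.filter (fun i => i ≠ j ∧ g j i = c) ⊂ X.filter (fun i => i ≠ k ∧ g k i = c) := by
        rw [Finset.ssubset_iff_of_subset]
        · refine ⟨j, Finset.mem_filter.2 ⟨hj, hjk, hg⟩, fun hcon => ?_⟩
          exact (Finset.mem_filter.1 hcon).2.1 rfl
        · intro i hi
          obtain ⟨hi, hij, hgi⟩ := Finset.mem_filter.1 hi
          have hik : i ≠ k := by
            rintro rfl
            exact h.asymm hP hjk.symm he.symm hg hgi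
          exact Finset.mem_filter.2 ⟨hi, hik, h.trans hP hjk.symm hij.symm hik.symm hg hgi⟩
      have hlt := Finset.card_lt_card hsub
      have h1 := ih j hj hjl (by omega)
      exact h.trans hP hjk.symm hjl hkl hg h1
  exact fun k hk hkl => key _ k hk hkl le_rfl

end PT

end Pool.Agent.Helper27.SO
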